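import Mathlib

/-!
# Project MU (helper55): the Iwasawa invariant `μ_p(K)` is at most `[K : ℚ]` for almost all `p`

Statements of the independent parts.
-/

set_option autoImplicit false

namespace Pool.Agent.H55.MU

open Polynomial NumberField Filter Topology

/-! ## HERB: Herbrand quotient of the units, cyclic groups of prime power order -/

/-- **S_HERB.** `U` is a finitely generated abelian group with an automorphism `s`, `s ^ (p ^ k) = 1`,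
such that the subgroup fixed by `s ^ (p ^ j)` has rank `p ^ j * R - 1` for all `j ≤ k`. Then
`p ^ k * [U^s : ν U] ≤ [ker ν : (s - 1) U]`. (`k = 1` is `Pool.Agent.Helper832_EG.abs_herb`.) -/
def S_HERB : Prop := ∀ (U : Type) [CommGroup U] [Module.Finite ℤ (Additive U)] (p k R : ℕ)
  [Fact p.Prime] (s δ ν : U →* U), (∀ u, s^[p ^ k] u = u) → (∀ u, δ u = s u / u) →
  (∀ u, ν u = ∏ i ∈ Finset.range (p ^ k), s^[i] u) →
  (∀ j ≤ k, ∀ δj : U →* U, (∀ u, δj u = s^[p ^ j] u / u) →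
    Module.finrank ℤ (Additive δj.ker) + 1 = p ^ j * R) →
  p ^ k * ν.range.relIndex δ.ker ≤ δ.range.relIndex ν.ker ∧ ν.range.relIndex δ.ker ≠ 0

/-! ## GROW: growth of finite modules over `ℤ[X]`, `X = γ - 1` -/

/-- `ξ_i = ((1 + X) ^ (p ^ i) - 1) / ((1 + X) ^ (p ^ (i - 1)) - 1)`, `i ≥ 1` -/
noncomputable def xi (p i : ℕ) : ℤ[X] := ∑ j ∈ Finset.range p, (1 + X) ^ (j * p ^ (i - 1))

/-- `ν_m = ((1 + X) ^ (p ^ m) - 1) / X` -/
noncomputable def nu (p m : ℕ) : ℤ[X] := ∑ j ∈ Finset.range (p ^ m), (1 + X) ^ j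

/-- the order of `V / f V` -/
noncomputable def qc (V : Type) [AddCommGroup V] [Module ℤ[X] V] (f : ℤ[X]) : ℕ :=
  Nat.card (V ⧸ LinearMap.range (LinearMap.lsmul ℤ[X] V f))

/-- **S_GROW.** -/
def S_GROW : Prop := ∀ (p : ℕ) [Fact p.Prime] (l : ℕ) (c : ℕ → ℕ) (U : ℕ → Type)
  [∀ m, AddCommGroup (U m)] [∀ m, Module ℤ[X] (U m)] [∀ m, Finite (U m)],
  (∀ m, ∀ v : U m, ∃ k : ℕ, (p ^ k) • v = 0) →
  (∀ m, ∀ v : U m, ∃ k : ℕ, (X ^ k : ℤ[X]) • v = 0) →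
  (∀ m, qc (U m) (nu p 1) ≤ p ^ l) →
  ∃ C : ℕ, ∀ (m : ℕ) (V : Type) [AddCommGroup V] [Module ℤ[X] V] [Finite V],
    (∀ v : V, nu p m • v = 0) → (∀ i, qc V (nu p i) ≤ c i) →
    (∀ m' ≥ m, ∃ f : U m' →ₗ[ℤ[X]] V, Function.Surjective f) →
    Nat.card V ≤ p ^ (l / (p - 1) * p ^ m + C * (m + 1))

/-! ## CLNO: the class number of the first layer -/

/-- **S_CLNO.** -/
def S_CLNO : Prop := ∀ (K : IntermediateField ℚ ℂ) [FiniteDimensional ℚ K], ∃ p₀ : ℕ, ∀ p : ℕ,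
  p.Prime → p₀ ≤ p → ∀ B : IntermediateField ℚ ℂ,
    B ≤ IntermediateField.adjoin ℚ {z : ℂ | z ^ (p ^ 2) = 1} → Module.finrank ℚ B = p →
    ∀ [NumberField ↥(K ⊔ B)], classNumber ↥(K ⊔ B) < p ^ ((Module.finrank ℚ K + 1) * (p - 1))

/-! ## DENS: densities of primes -/

open scoped Classical in
/-- `∑_{𝔭 ∈ T} N(𝔭) ^ (-s)` over the maximal ideals in `T` -/
noncomputable def PS (K : Type) [Field K] [NumberField K] (T : Set (Ideal (𝓞 K))) (s : ℝ) : ℝ :=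
  ∑' 𝔭 : Ideal (𝓞 K), if 𝔭.IsMaximal ∧ 𝔭 ∈ T then ((Ideal.absNorm 𝔭 : ℕ) : ℝ) ^ (-s) else 0

/-- **S_DENS.** The primes with class in a subgroup `D` of the class group have Dirichlet density
`1 / [Cl : D]`; the primes of `K` with a prime of the same norm above it in the Galois extension `M`
have Dirichlet density at least `1 / [M : K]`, and equality if `M / K` is unramified. -/
def S_DENS : Prop :=
  (∀ (K : Type) [Field K] [NumberField K] (D : Subgroup (ClassGroup (𝓞 K))), ∃ C : ℝ,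
    ∀ s : ℝ, 1 < s → s ≤ 2 → |(D.index : ℝ) * PS K {𝔭 | ∃ h : 𝔭 ∈ nonZeroDivisors (Ideal (𝓞 K)),
      ClassGroup.mk0 ⟨𝔭, h⟩ ∈ D} s - Real.log (1 / (s - 1))| ≤ C) ∧
  ∀ (K M : Type) [Field K] [NumberField K] [Field M] [NumberField M] [Algebra K M] [IsGalois K M],
    ∃ C : ℝ, ∀ s : ℝ, 1 < s → s ≤ 2 →
      Real.log (1 / (s - 1)) - C ≤ (Module.finrank K M : ℝ) *
        PS K {𝔭 | ∃ 𝔓 : Ideal (𝓞 M), 𝔓.IsMaximal ∧ 𝔓.under (𝓞 K) = 𝔭 ∧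
          Ideal.absNorm 𝔓 = Ideal.absNorm 𝔭} s ∧
      ((∀ 𝔓 : Ideal (𝓞 M), 𝔓.IsMaximal → 𝔓.ramificationIdx (𝓞 K) = 1) →
        (Module.finrank K M : ℝ) * PS K {𝔭 | ∃ 𝔓 : Ideal (𝓞 M), 𝔓.IsMaximal ∧ 𝔓.under (𝓞 K) = 𝔭 ∧
          Ideal.absNorm 𝔓 = Ideal.absNorm 𝔭} s ≤ Real.log (1 / (s - 1)) + C)

end Pool.Agent.H55.MU
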