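import Pool.Agent.H55.MU.Stm

/-!
# Project MU: statement of the group theoretic part
-/

set_option autoImplicit false

namespace Pool.Agent.H55.MU

/-- `W` corresponds to an abelian extension of `p`-power degree, unramified with respect to the family
`𝓘` of inertia groups, of the field corresponding to `H`. -/
structure Unr {G : Type} [Group G] [TopologicalSpace G] (𝓘 : Set (Subgroup G)) (p : ℕ)
    (H W : Subgroup G) : Prop where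
  le : W ≤ H
  opn : IsOpen (W : Set G)
  comm : ∀ x ∈ H, ∀ y ∈ H, x * y * x⁻¹ * y⁻¹ ∈ W
  unr : ∀ I ∈ 𝓘, I ⊓ H ≤ W
  pp : ∃ a : ℕ, W.relIndex H = p ^ a

/-- **S_GT.** Growth of the orders of the maximal unramified abelian `p`-extensions. -/
def S_GT : Prop := ∀ (G : Type) [Group G] [TopologicalSpace G] [IsTopologicalGroup G]
  (𝓘 : Set (Subgroup G)) (p l : ℕ) [Fact p.Prime] (Gm : ℕ → Subgroup G) (c : ℕ → ℕ) (g : G),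
  (∀ I ∈ 𝓘, ∀ x : G, I.map (MulAut.conj x).toMonoidHom ∈ 𝓘) →
  Gm 0 = ⊤ → Antitone Gm → (∀ m, IsOpen (Gm m : Set G)) → (∀ m, (Gm m).Normal) →
  (∀ m, (Gm m).index = p ^ m) →
  (∀ m, ∀ x : G, ∃ k : ℕ, g ^ k * x ∈ Gm m) →
  (∃ I ∈ 𝓘, g ∈ I) →
  (∀ I ∈ 𝓘, (∀ m, I ≤ Gm m) ∨ (∀ m, ∃ s ∈ I, s * g⁻¹ ∈ Gm m)) →
  (∀ W, Unr 𝓘 p ⊤ W → W = ⊤) →
  (∀ i W, Unr 𝓘 p (Gm i) W → W.relIndex (Gm i) ≤ c i) →
  (∀ W, Unr 𝓘 p (Gm 1) W → W.relIndex (Gm 1) ≤ p ^ l) →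
  ∃ C : ℕ, ∀ m W, Unr 𝓘 p (Gm m) W → W.relIndex (Gm m) ≤ p ^ (l / (p - 1) * p ^ m + C * (m + 1))

end Pool.Agent.H55.MU
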