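import Pool.Agent.Helper832_EG.Fld
import Pool.Agent.H55.MU.GTStm

/-!
# Project MU: statements of the parts about the absolute Galois group of `ℚ`
-/

set_option autoImplicit false

namespace Pool.Agent.H55.MU

open NumberField Pool.Agent.W569.FM Pool.Agent.Helper832_EG

/-- **S_CYC.** The cyclotomic `ℤ_p`-extension of `ℚ` in terms of Galois groups; `A m` is the group of
the layer of degree `p ^ m`. -/
def S_CYC : Prop := ∀ (p : ℕ) [Fact p.Prime], p ≠ 2 → ∃ A : ℕ → Subgroup (GF ℚ),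
  A 0 = ⊤ ∧ Antitone A ∧ (∀ m, IsOpen (A m : Set (GF ℚ))) ∧ (∀ m, (A m).Normal) ∧
  (∀ m, (A m).index = p ^ m) ∧
  (∀ g : GF ℚ, g ∉ A 1 → ∀ (m : ℕ) (x : GF ℚ), ∃ k : ℕ, g ^ k * x ∈ A m) ∧
  (∀ I ∈ tameI ℚ p, ∀ m, I ≤ A m) ∧
  (∀ I ∈ wildI ℚ p, ∀ (m : ℕ) (x : GF ℚ), ∃ s ∈ I, s * x⁻¹ ∈ A m) ∧
  (∀ m, IntermediateField.fixedField (A m) ≤
      IntermediateField.adjoin ℚ {z : AlgebraicClosure ℚ | z ^ (p ^ (m + 1)) = 1} ∧
    Module.finrank ℚ (IntermediateField.fixedField (A m)) = p ^ m) ∧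
  (∀ (m : ℕ) (B : IntermediateField ℚ (AlgebraicClosure ℚ)),
    B ≤ IntermediateField.adjoin ℚ {z : AlgebraicClosure ℚ | z ^ (p ^ (m + 1)) = 1} →
    Module.finrank ℚ B = p ^ m → B.fixingSubgroup = A m)

/-- **S_UNR.** Almost all primes are unramified in a number field. -/
def S_UNR : Prop := ∀ (K : IntermediateField ℚ (AlgebraicClosure ℚ)) [FiniteDimensional ℚ K],
  ∃ p₀ : ℕ, ∀ p : ℕ, p.Prime → p₀ ≤ p → ∀ I ∈ wildI ℚ p, I ≤ K.fixingSubgroup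

/-- **S_CV1.** From subgroups to number fields. -/
def S_CV1 : Prop := ∀ (D : IntermediateField ℚ (AlgebraicClosure ℚ)) [FiniteDimensional ℚ D] [NumberField D]
  (p : ℕ) (W : Subgroup (GF ℚ)), Unr (inertias ℚ) p D.fixingSubgroup W →
  ∃ (M : IntermediateField D (AlgebraicClosure ℚ)) (_ : NumberField M) (_ : IsGalois D M),
    (∀ x y : Gal(M/D), x * y = y * x) ∧ Nat.card Gal(M/D) = W.relIndex D.fixingSubgroup ∧
    ∀ P : Ideal (𝓞 M), P.IsMaximal → P.ramificationIdx (𝓞 D) = 1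

/-- **S_CV2.** From number fields to subgroups. -/
def S_CV2 : Prop := ∀ (E L : Type) [Field E] [NumberField E] [Field L] [NumberField L] [Algebra E L]
  [IsGalois E L] (ε : E →+* AlgebraicClosure ℚ) (H : Subgroup (GF ℚ)),
  (∀ g : GF ℚ, g ∈ H ↔ ∀ x : E, g (ε x) = ε x) → (∀ a b : Gal(L/E), a * b = b * a) →
  (∀ P : Ideal (𝓞 L), P.IsMaximal → P.ramificationIdx (𝓞 E) = 1) →
  ∀ p k : ℕ, Nat.card Gal(L/E) = p ^ k → ∃ W, Unr (inertias ℚ) p H W ∧ W.relIndex H = p ^ k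

end Pool.Agent.H55.MU
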