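import Pool.Agent.Helper832_EG.PD11
import Pool.Agent.H55.MU.GalStm

/-!
# From unramified abelian extensions of number fields to subgroups of the absolute Galois group
-/

set_option autoImplicit false
set_option linter.style.haveILetI false
set_option linter.unusedSectionVars false
set_option linter.unusedVariables false

open NumberField Ideal Module IntermediateField Pool.Agent.W569.FM Pool.Agent.Helper832_EG
open scoped Pointwise nonZeroDivisors

namespace Pool.Agent.H55.MU

theorem cv2 {k : Type} [Field k] [NumberField k] (E L : Type) [Field E] [NumberField E] [Field L] [NumberField L]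
    [Algebra E L] [IsGalois E L] [Algebra k E] [Algebra k L] [IsScalarTower k E L] (ε : E →ₐ[k] AlgebraicClosure k)
    (H : Subgroup (GF k)) (hH : ∀ g : GF k, g ∈ H ↔ ∀ x : E, g (ε x) = ε x)
    (hab : ∀ a b : Gal(L/E), a * b = b * a)
    (hur : ∀ P : Ideal (𝓞 L), P.IsMaximal → P.ramificationIdx (𝓞 E) = 1) {p a : ℕ}
    (hcard : Nat.card Gal(L/E) = p ^ a) : ∃ W, Unr (inertias k) p H W ∧ W.relIndex H = p ^ a := by
  classical
  letI : Algebra E (AlgebraicClosure k) := ε.toRingHom.toAlgebra
  have hε : ∀ x, algebraMap E (AlgebraicClosure k) x = ε x := fun x => rfl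
  haveI : IsScalarTower k E (AlgebraicClosure k) := IsScalarTower.of_algebraMap_eq' ε.comp_algebraMap.symm
  haveI : Algebra.IsAlgebraic E (AlgebraicClosure k) := Algebra.IsAlgebraic.tower_top (K := k) E
  haveI : IsAlgClosure E (AlgebraicClosure k) := ⟨inferInstance, inferInstance⟩
  haveI : Normal E (AlgebraicClosure k) := IsAlgClosure.normal E (AlgebraicClosure k)
  let ι : L →ₐ[E] AlgebraicClosure k := IsAlgClosed.lift
  letI : Algebra L (AlgebraicClosure k) := ι.toRingHom.toAlgebra
  have hι : ∀ x, algebraMap L (AlgebraicClosure k) x = ι x := fun x => rfl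
  haveI : IsScalarTower E L (AlgebraicClosure k) := IsScalarTower.of_algebraMap_eq' ι.comp_algebraMap.symm
  haveI : IsScalarTower k L (AlgebraicClosure k) := by
    refine IsScalarTower.of_algebraMap_eq fun x => ?_
    rw [IsScalarTower.algebraMap_apply k E L, ← IsScalarTower.algebraMap_apply E L (AlgebraicClosure k),
      ← IsScalarTower.algebraMap_apply k E (AlgebraicClosure k)]
  -- the field generated
  haveI : FiniteDimensional k L := FiniteDimensional.right ℚ k L
  let ιQ : L →ₐ[k] AlgebraicClosure k := IsScalarTower.toAlgHom k L (AlgebraicClosure k)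
  set L' : IntermediateField k (AlgebraicClosure k) := ιQ.fieldRange with hL'
  haveI : FiniteDimensional k L' := (AlgEquiv.ofInjectiveField ιQ).toLinearEquiv.finiteDimensional
  set W : Subgroup (GF k) := L'.fixingSubgroup with hW
  have hmW : ∀ g : GF k, g ∈ W ↔ ∀ x : L, g (ι x) = ι x := by
    intro g
    rw [hW, IntermediateField.mem_fixingSubgroup_iff]
    constructor
    · intro h x
      exact h _ ⟨x, rfl⟩
    · rintro h _ ⟨x, rfl⟩
      exact h x
  have hWopen : IsOpen (W : Set (GF k)) := L'.fixingSubgroup_isOpen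
  -- the equivalence with the Galois group over `E`
  let f : H →* Gal(AlgebraicClosure k/E) :=
    { toFun := fun g => AlgEquiv.ofRingEquiv (f := ((g : GF k) : AlgebraicClosure k ≃+* AlgebraicClosure k))
        (fun x => (hH (g : GF k)).1 g.2 x)
      map_one' := by ext x; rfl
      map_mul' := fun a b => by ext x; rfl }
  have hf : ∀ (g : H) (x : AlgebraicClosure k), f g x = (g : GF k) x := fun g x => rfl
  have hfs : Function.Surjective f := by
    intro σ
    refine ⟨⟨σ.restrictScalars k, (hH _).2 fun x => ?_⟩, ?_⟩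
    · exact σ.commutes x
    · ext x; rfl
  let ρ : Gal(AlgebraicClosure k/E) →* Gal(L/E) := AlgEquiv.restrictNormalHom L
  have hρs : Function.Surjective ρ := AlgEquiv.restrictNormalHom_surjective (F := E) (K₁ := L) (AlgebraicClosure k)
  have hρ : ∀ (σ : Gal(AlgebraicClosure k/E)) (x : L), ι (ρ σ x) = σ (ι x) :=
    fun σ x => AlgEquiv.restrictNormal_commutes σ L x
  have hker : W.subgroupOf H = (ρ.comp f).ker := by
    ext g
    rw [Subgroup.mem_subgroupOf, hmW, MonoidHom.mem_ker, MonoidHom.comp_apply]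
    constructor
    · intro h
      apply AlgEquiv.ext
      intro x
      apply ι.toRingHom.injective
      show ι (ρ (f g) x) = ι x
      rw [hρ, hf]; exact h x
    · intro h x
      have h1 := hρ (f g) x
      rw [h, hf] at h1
      exact h1.symm
  have hrel : W.relIndex H = p ^ a := by
    have hss : Function.Surjective (ρ.comp f) := fun x => by
      obtain ⟨y, rfl⟩ := hρs x
      obtain ⟨z, rfl⟩ := hfs y
      exact ⟨z, rfl⟩
    rw [Subgroup.relIndex, hker, Subgroup.index_ker, MonoidHom.range_eq_top.2 hss, Subgroup.card_top, hcard]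
  have hWH : W ≤ H := by
    intro g hg
    rw [hH]
    intro x
    have h1 : ε x = ι (algebraMap E L x) := (ι.commutes x).symm
    rw [h1]
    exact (hmW g).1 hg _
  refine ⟨W, ⟨hWH, hWopen, ?_, ?_, ⟨a, hrel⟩⟩, hrel⟩
  · intro x hx y hy
    have h1 : (⟨x, hx⟩ * ⟨y, hy⟩ * ⟨x, hx⟩⁻¹ * ⟨y, hy⟩⁻¹ : H) ∈ W.subgroupOf H := by
      rw [hker, MonoidHom.mem_ker, map_mul, map_mul, map_mul, map_inv, map_inv, hab ((ρ.comp f) ⟨x, hx⟩), mul_inv_cancel_right,
        mul_inv_cancel]
    exact h1
  · rintro _ ⟨Q, hQ, rfl⟩ g ⟨hg1, hg2⟩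
    haveI := hQ
    haveI : Algebra.IsIntegral (𝓞 L) (𝓞 (AlgebraicClosure k)) := Algebra.IsIntegral.tower_top (R := ℤ)
    have hPm : (Q.under (𝓞 L)).IsMaximal := Ideal.IsMaximal.under (𝓞 L) Q
    have hbot : (Q.under (𝓞 L)).inertia Gal(L/E) = ⊥ := by
      rw [← Subgroup.card_eq_one, card_inertia (F := E) hPm, hur _ hPm]
    have hγ : ρ (f ⟨g, hg2⟩) ∈ (Q.under (𝓞 L)).inertia Gal(L/E) := by
      intro x
      show algebraMap (𝓞 L) (𝓞 (AlgebraicClosure k)) (ρ (f ⟨g, hg2⟩) • x - x) ∈ Q
      rw [map_sub]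
      have h1 : algebraMap (𝓞 L) (𝓞 (AlgebraicClosure k)) (ρ (f ⟨g, hg2⟩) • x) =
          g • algebraMap (𝓞 L) (𝓞 (AlgebraicClosure k)) x := by
        apply RingOfIntegers.ext
        exact hρ (f ⟨g, hg2⟩) (x : L)
      rw [h1]
      exact hg1 _
    rw [hbot, Subgroup.mem_bot] at hγ
    have h2 : (⟨g, hg2⟩ : H) ∈ W.subgroupOf H := by
      rw [hker]
      exact hγ
    exact h2

theorem cv2_main : S_CV2 := by
  intro E L _ _ _ _ _ _ ε H hH hab hur p a hcard
  exact cv2 E L (ε.toRatAlgHom) H hH hab hur hcard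

end Pool.Agent.H55.MU
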