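import Pool.Agent.H55.MU.UB

/-!
# The degree of an unramified abelian extension of `p`-power degree is at most the class number
-/

set_option autoImplicit false
set_option linter.style.haveILetI false
set_option linter.unusedSectionVars false
set_option linter.unusedVariables false

open NumberField Ideal Module
open scoped Pointwise nonZeroDivisors Classical

namespace Pool.Agent.H55.MU

section
variable {K L : Type} [Field K] [NumberField K] [Field L] [NumberField L] [Algebra K L] [IsGalois K L]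
  {p : ℕ} [hp : Fact p.Prime]

lemma cyc_field (hab : ∀ x y : Gal(L/K), x * y = y * x) {a : ℕ} (hcard : Nat.card Gal(L/K) = p ^ a)
    {z : Gal(L/K)} (hz : z ≠ 1) : ∃ (M : IntermediateField K L) (_ : IsGalois K M), IsCyclic Gal(M/K) ∧
      (∃ b, Nat.card Gal(M/K) = p ^ b) ∧ z ∉ M.fixingSubgroup := by
  obtain ⟨χ, hχ⟩ := exists_cyc_quot hab hz
  set M : IntermediateField K L := IntermediateField.fixedField χ.ker with hM
  have hfix : M.fixingSubgroup = χ.ker := IntermediateField.fixingSubgroup_fixedField χ.ker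
  haveI : IsGalois K M := IsGalois.of_fixedField_normal_subgroup χ.ker
  have e1 : Gal(M/K) ≃* Gal(L/K) ⧸ M.fixingSubgroup :=
    ((QuotientGroup.quotientMulEquivOfEq M.restrictNormalHom_ker.symm).trans
      (QuotientGroup.quotientKerEquivOfSurjective _ (AlgEquiv.restrictNormalHom_surjective (F := K) (K₁ := M) L))).symm
  have e2 : Gal(M/K) ≃* χ.range :=
    e1.trans ((QuotientGroup.quotientMulEquivOfEq hfix).trans (QuotientGroup.quotientKerEquivRange χ))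
  haveI : Finite χ.range := Finite.of_equiv _ e2.toEquiv
  haveI : IsCyclic χ.range := isCyclic_subgroup_units χ.range
  refine ⟨M, inferInstance, isCyclic_of_injective e2.toMonoidHom e2.injective, ?_, ?_⟩
  · have h1 : Nat.card Gal(M/K) ∣ p ^ a := by
      rw [Nat.card_congr e1.toEquiv, ← hcard, ← Subgroup.index_eq_card]
      exact Subgroup.index_dvd_card _
    obtain ⟨b, _, hb⟩ := (Nat.dvd_prime_pow hp.out).1 h1
    exact ⟨b, hb⟩
  · rw [hfix, MonoidHom.mem_ker]; exact hχ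

/-- the prime ideals with class in a subgroup of the class group -/
def SD (D : Subgroup (ClassGroup (𝓞 K))) : Set (Ideal (𝓞 K)) :=
  {𝔭 | ∃ h : 𝔭 ∈ nonZeroDivisors (Ideal (𝓞 K)), ClassGroup.mk0 ⟨𝔭, h⟩ ∈ D}

variable (K L) in
/-- the prime ideals of `K` with a prime of the same norm above -/
def TL : Set (Ideal (𝓞 K)) :=
  {𝔭 | ∃ 𝔓 : Ideal (𝓞 L), 𝔓.IsMaximal ∧ 𝔓.under (𝓞 K) = 𝔭 ∧ Ideal.absNorm 𝔓 = Ideal.absNorm 𝔭}

lemma TL_sub_SD {𝔭 : Ideal (𝓞 K)} (hm : 𝔭.IsMaximal) (h : 𝔭 ∈ TL K L) : 𝔭 ∈ SD (nC K L).range := by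
  obtain ⟨𝔓, h1, h2, h3⟩ := h
  have h0 : 𝔭 ∈ nonZeroDivisors (Ideal (𝓞 K)) :=
    mem_nonZeroDivisors_of_ne_zero (Ideal.IsMaximal.ne_bot_of_isIntegral_int 𝔭)
  subst h2
  exact ⟨h0, mem_range_nC h1 h3 h0⟩

/-- the data attached to a nontrivial element of the Galois group -/
lemma exists_data (hHerb : S_HERB) (hD : S_DENS) (hp2 : p ≠ 2 ∨ IsTotallyComplex K)
    (hab : ∀ x y : Gal(L/K), x * y = y * x) {a : ℕ} (hcard : Nat.card Gal(L/K) = p ^ a)
    (hur : ∀ Q : Ideal (𝓞 L), Q.IsMaximal → Q.ramificationIdx (𝓞 K) = 1) (z : Gal(L/K)) :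
    ∃ (D : Subgroup (ClassGroup (𝓞 K))) (T : Set (Ideal (𝓞 K))) (C : ℝ), z ≠ 1 →
      (∀ 𝔭 : Ideal (𝓞 K), 𝔭.IsMaximal → 𝔭 ∈ T → 𝔭 ∈ SD D) ∧
      (∀ s : ℝ, 1 < s → s ≤ 2 → PS K (SD D) s - PS K T s ≤ C) ∧
      (∀ Q : Ideal (𝓞 L), Q.IsMaximal → z • Q = Q → Q.under (𝓞 K) ∉ T) := by
  by_cases hz : z = 1
  · exact ⟨⊥, ∅, 0, fun h => absurd hz h⟩
  obtain ⟨M, hMg, hcyc, ⟨b, hb⟩, hzM⟩ := cyc_field hab hcard hz
  have hurM := ur_sub hur M
  have hfirst := first (K := K) (L := M) hHerb hp2 hb hcyc hurM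
  obtain ⟨C1, hC1⟩ := hD.1 K (nC K M).range
  obtain ⟨C2, hC2⟩ := hD.2 K M
  have hsub : ∀ 𝔭 : Ideal (𝓞 K), 𝔭.IsMaximal → 𝔭 ∈ TL K M → 𝔭 ∈ SD (nC K M).range := fun 𝔭 hm h => TL_sub_SD hm h
  refine ⟨(nC K M).range, TL K M, (|C1| + |C2|), fun _ => ⟨hsub, fun s hs hs2 => ?_, ?_⟩⟩
  · have h1 := hC1 s hs hs2
    have h2 := (hC2 s hs hs2).1
    have hfr : Module.finrank K M = p ^ b := by rw [← hb, IsGalois.card_aut_eq_finrank]
    set x := PS K (SD (nC K M).range) s with hx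
    set y := PS K (TL K M) s with hy
    have hyx : y ≤ x := ps_mono K hsub hs
    have h1' : |((nC K M).range.index : ℝ) * x - Real.log (1 / (s - 1))| ≤ C1 := h1
    have h2' : Real.log (1 / (s - 1)) - C2 ≤ (Module.finrank K M : ℝ) * y := h2
    rw [hfr] at h2'
    have hidx : ((p ^ b : ℕ) : ℝ) ≤ ((nC K M).range.index : ℝ) := by exact_mod_cast hfirst
    have hx0 : 0 ≤ x := ps_nonneg K _ s
    have h3 : ((p ^ b : ℕ) : ℝ) * x ≤ ((nC K M).range.index : ℝ) * x := mul_le_mul_of_nonneg_right hidx hx0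
    have h4 := (abs_le.1 h1').2
    have hpb : (1 : ℝ) ≤ ((p ^ b : ℕ) : ℝ) := by exact_mod_cast Nat.one_le_pow _ _ hp.out.pos
    have h5 : x - y ≤ ((p ^ b : ℕ) : ℝ) * (x - y) := le_mul_of_one_le_left (by linarith) hpb
    have h6 := le_abs_self C1
    have h7 := le_abs_self C2
    have h8 : ((p ^ b : ℕ) : ℝ) * (x - y) = ((p ^ b : ℕ) : ℝ) * x - ((p ^ b : ℕ) : ℝ) * y := by ring
    linarith
  · rintro Q hQ hzQ ⟨𝔓, h1, h2, h3⟩
    exact hzM (stab_sub hur M hQ h1 h2 (by rw [h2]; exact h3) hzQ)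

/-- **The degree of an unramified abelian extension of `p`-power degree is at most the class number.** -/
theorem ub (hHerb : S_HERB) (hD : S_DENS) (hp2 : p ≠ 2 ∨ IsTotallyComplex K)
    (hab : ∀ x y : Gal(L/K), x * y = y * x) {a : ℕ} (hcard : Nat.card Gal(L/K) = p ^ a)
    (hur : ∀ Q : Ideal (𝓞 L), Q.IsMaximal → Q.ramificationIdx (𝓞 K) = 1) : p ^ a ≤ classNumber K := by
  have hex := fun z : Gal(L/K) => exists_data hHerb hD hp2 hab hcard hur z
  choose D T C hdata using hex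
  haveI : Fintype Gal(L/K) := Fintype.ofFinite _
  set F : Finset Gal(L/K) := Finset.univ.filter (fun z => z ≠ 1) with hF
  have hmF : ∀ z, z ∈ F ↔ z ≠ 1 := fun z => by simp [hF]
  set D0 : Subgroup (ClassGroup (𝓞 K)) := ⨅ z ∈ F, D z with hD0
  have hD0le : ∀ z ∈ F, D0 ≤ D z := fun z hz => iInf₂_le z hz
  have key : ∀ s : ℝ, 1 < s → PS K (SD D0) s ≤ PS K (TL K L) s + ∑ z ∈ F, (PS K (SD (D z)) s - PS K (T z) s) := by
    intro s hs
    refine ps_le_add K F (SD D0) (TL K L) (fun z => SD (D z)) T (fun z hz => (hdata z ((hmF z).1 hz)).1) ?_ hs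
    intro 𝔭 hm hS hT
    haveI := hm
    haveI : Algebra.IsIntegral (𝓞 K) (𝓞 L) := Algebra.IsIntegral.tower_top (R := ℤ)
    obtain ⟨Q, hQ, hQ𝔭⟩ := Ideal.exists_maximal_ideal_liesOver_of_isIntegral (S := 𝓞 L) 𝔭
    have hover : Q.under (𝓞 K) = 𝔭 := hQ𝔭.over.symm
    have hf : Q.inertiaDeg (𝓞 K) ≠ 1 := by
      intro hf
      refine hT ⟨Q, hQ, hover, ?_⟩
      rw [← hover]
      exact (absNorm_eq_iff hQ).2 hf
    rw [← card_stab hQ (hur Q hQ)] at hf
    obtain ⟨z, hz, hz1⟩ : ∃ z ∈ MulAction.stabilizer Gal(L/K) Q, z ≠ 1 := by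
      by_contra hcon
      push Not at hcon
      apply hf
      rw [Subgroup.card_eq_one, eq_bot_iff]
      intro z hz
      exact Subgroup.mem_bot.2 (hcon z hz)
    refine ⟨z, (hmF z).2 hz1, ?_, ?_⟩
    · obtain ⟨h0, h1⟩ := hS
      exact ⟨h0, hD0le z ((hmF z).2 hz1) h1⟩
    · rw [← hover]
      exact (hdata z hz1).2.2 Q hQ hz
  obtain ⟨C3, hC3⟩ := hD.1 K D0
  obtain ⟨C4, hC4⟩ := hD.2 K L
  have hidx0 : 0 < D0.index := by
    haveI : D0.FiniteIndex := Subgroup.finiteIndex_of_finite_quotient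
    exact Nat.pos_of_ne_zero Subgroup.FiniteIndex.index_ne_zero
  have hle : p ^ a ≤ D0.index := by
    have hfr : Module.finrank K L = p ^ a := by rw [← hcard, IsGalois.card_aut_eq_finrank]
    have hpa : (0 : ℝ) < ((p ^ a : ℕ) : ℝ) := by exact_mod_cast pow_pos hp.out.pos a
    have hd0 : (0 : ℝ) < (D0.index : ℝ) := by exact_mod_cast hidx0
    have h1 : ((p ^ a : ℕ) : ℝ) ≤ (D0.index : ℝ) := by
      refine compare (C := C3 / D0.index + C4 / ((p ^ a : ℕ) : ℝ) + ∑ z ∈ F, C z) hd0 hpa (fun s hs hs2 => ?_)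
      have h2 := key s hs
      have h3 : ∑ z ∈ F, (PS K (SD (D z)) s - PS K (T z) s) ≤ ∑ z ∈ F, C z :=
        Finset.sum_le_sum fun z hz => (hdata z ((hmF z).1 hz)).2.1 s hs hs2
      have h4 : Real.log (1 / (s - 1)) - C3 ≤ (D0.index : ℝ) * PS K (SD D0) s := by
        have h5 : |(D0.index : ℝ) * PS K (SD D0) s - Real.log (1 / (s - 1))| ≤ C3 := hC3 s hs hs2
        have := (abs_le.1 h5).1
        linarith
      have h6 : ((p ^ a : ℕ) : ℝ) * PS K (TL K L) s ≤ Real.log (1 / (s - 1)) + C4 := by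
        have := (hC4 s hs hs2).2 hur
        rw [hfr] at this
        exact this
      set ℓ := Real.log (1 / (s - 1)) with hℓ
      have h7 : (ℓ - C3) / D0.index ≤ PS K (SD D0) s := by
        rw [div_le_iff₀ hd0, mul_comm]; exact h4
      have h8 : PS K (TL K L) s ≤ (ℓ + C4) / ((p ^ a : ℕ) : ℝ) := by
        rw [le_div_iff₀ hpa, mul_comm]; exact h6
      have h9 : (ℓ - C3) / D0.index ≤ (ℓ + C4) / ((p ^ a : ℕ) : ℝ) + ∑ z ∈ F, C z := by linarith
      have h10 : (ℓ - C3) / D0.index = ℓ * (1 / D0.index) - C3 / D0.index := by ring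
      have h11 : (ℓ + C4) / ((p ^ a : ℕ) : ℝ) = ℓ * (1 / ((p ^ a : ℕ) : ℝ)) + C4 / ((p ^ a : ℕ) : ℝ) := by ring
      rw [h10, h11] at h9
      have h12 : ℓ * (1 / (D0.index : ℝ) - 1 / ((p ^ a : ℕ) : ℝ)) =
        ℓ * (1 / D0.index) - ℓ * (1 / ((p ^ a : ℕ) : ℝ)) := by ring
      rw [h12]
      linarith
    exact_mod_cast h1
  refine hle.trans ?_
  have h1 := Subgroup.card_mul_index D0
  rw [classNumber, ← Nat.card_eq_fintype_card, ← h1]
  exact Nat.le_mul_of_pos_left _ Nat.card_pos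

end

end Pool.Agent.H55.MU
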