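import Pool.Agent.H55.MU.CV1
import Pool.Agent.H55.MU.CV2
import Pool.Agent.H55.MU.UB2

/-!
# Assembly, part 1: conversions
-/

set_option autoImplicit false
set_option linter.style.haveILetI false
set_option linter.unusedSectionVars false
set_option linter.unusedVariables false

open NumberField Ideal Module IntermediateField Pool.Agent.W569.FM Pool.Agent.Helper832_EG
open scoped Pointwise nonZeroDivisors

namespace Pool.Agent.H55.MU

/-! ### subgroups of a subgroup -/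

section
variable {G : Type} [Group G] [TopologicalSpace G]

/-- the family of the intersections with a subgroup -/
def res (𝓘 : Set (Subgroup G)) (H0 : Subgroup G) : Set (Subgroup H0) := {J | ∃ I ∈ 𝓘, J = I.subgroupOf H0}

lemma unr_map (𝓘 : Set (Subgroup G)) (p : ℕ) {H0 H : Subgroup G} (hH : H ≤ H0) (ho : IsOpen (H0 : Set G))
    {W : Subgroup H0} (h : Unr (res 𝓘 H0) p (H.subgroupOf H0) W) :
    Unr 𝓘 p H (W.map H0.subtype) ∧ (W.map H0.subtype).relIndex H = W.relIndex (H.subgroupOf H0) := by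
  have hidx : (W.map H0.subtype).relIndex H = W.relIndex (H.subgroupOf H0) := by
    have h1 := Subgroup.relIndex_map_map_of_injective W (H.subgroupOf H0) H0.subtype_injective
    rw [Subgroup.map_subgroupOf_eq_of_le hH] at h1
    exact h1
  refine ⟨⟨?_, ?_, ?_, ?_, ?_⟩, hidx⟩
  · rintro _ ⟨x, hx, rfl⟩
    exact Subgroup.mem_subgroupOf.1 (h.le hx)
  · rw [Subgroup.coe_map]
    exact ho.isOpenMap_subtype_val _ h.opn
  · intro x hx y hy
    exact ⟨_, h.comm ⟨x, hH hx⟩ (Subgroup.mem_subgroupOf.2 hx) ⟨y, hH hy⟩ (Subgroup.mem_subgroupOf.2 hy), rfl⟩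
  · rintro I hI x ⟨hx1, hx2⟩
    exact ⟨⟨x, hH hx2⟩, h.unr _ ⟨I, hI, rfl⟩ ⟨Subgroup.mem_subgroupOf.2 hx1, Subgroup.mem_subgroupOf.2 hx2⟩, rfl⟩
  · obtain ⟨a, ha⟩ := h.pp
    exact ⟨a, by rw [hidx, ha]⟩

lemma unr_sub (𝓘 : Set (Subgroup G)) (p : ℕ) {H0 H : Subgroup G} (hH : H ≤ H0)
    {W : Subgroup G} (h : Unr 𝓘 p H W) :
    Unr (res 𝓘 H0) p (H.subgroupOf H0) (W.subgroupOf H0) ∧
      (W.subgroupOf H0).relIndex (H.subgroupOf H0) = W.relIndex H := by
  have hidx : (W.subgroupOf H0).relIndex (H.subgroupOf H0) = W.relIndex H := Subgroup.relIndex_subgroupOf hH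
  refine ⟨⟨?_, ?_, ?_, ?_, ?_⟩, hidx⟩
  · intro x hx
    exact Subgroup.mem_subgroupOf.2 (h.le (Subgroup.mem_subgroupOf.1 hx))
  · exact h.opn.preimage continuous_subtype_val
  · intro x hx y hy
    exact Subgroup.mem_subgroupOf.2 (h.comm _ (Subgroup.mem_subgroupOf.1 hx) _ (Subgroup.mem_subgroupOf.1 hy))
  · rintro _ ⟨I, hI, rfl⟩ x ⟨hx1, hx2⟩
    exact Subgroup.mem_subgroupOf.2 (h.unr I hI ⟨Subgroup.mem_subgroupOf.1 hx1, Subgroup.mem_subgroupOf.1 hx2⟩)
  · obtain ⟨a, ha⟩ := h.pp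
    exact ⟨a, by rw [hidx, ha]⟩

end

/-! ### upper bounds -/

/-- the degree of an unramified abelian extension of `p`-power degree, in terms of subgroups -/
theorem ub_grp (hHerb : S_HERB) (hD : S_DENS) {k : Type} [Field k] [NumberField k]
    (D : IntermediateField k (AlgebraicClosure k)) [FiniteDimensional k D] [NumberField D] {p : ℕ} (hp : p.Prime)
    (hp2 : p ≠ 2) (W : Subgroup (GF k)) (hW : Unr (inertias k) p D.fixingSubgroup W) :
    W.relIndex D.fixingSubgroup ≤ classNumber D := by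
  haveI : Fact p.Prime := ⟨hp⟩
  obtain ⟨M, hM1, hM2, hab, hcard, hur⟩ := cv1 D p W hW
  obtain ⟨a, ha⟩ := hW.pp
  rw [ha] at hcard ⊢
  exact ub (K := D) (L := M) hHerb hD (Or.inl hp2) hab hcard hur

end Pool.Agent.H55.MU
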