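import Pool.Agent.H55.MU.Asm1

/-!
# Assembly, part 2: fields of complex numbers and of algebraic numbers
-/

set_option autoImplicit false
set_option linter.style.haveILetI false
set_option linter.unusedSectionVars false
set_option linter.unusedVariables false

open NumberField Ideal Module Pool.Agent.W569.FM Pool.Agent.Helper832_EG
open scoped Pointwise nonZeroDivisors

namespace Pool.Agent.H55.MU

/-- the algebraic numbers -/
abbrev AQ : Type := AlgebraicClosure ℚ

/-- the fixing subgroup, as a subgroup of `GF ℚ` -/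
noncomputable def fx (D : IntermediateField ℚ AQ) : Subgroup (GF ℚ) := D.fixingSubgroup

lemma mem_fx {D : IntermediateField ℚ AQ} {g : GF ℚ} : g ∈ fx D ↔ ∀ x ∈ D, g x = x :=
  IntermediateField.mem_fixingSubgroup_iff D g

lemma fx_sup (D D' : IntermediateField ℚ AQ) : fx (D ⊔ D') = fx D ⊓ fx D' := IntermediateField.fixingSubgroup_sup

lemma fx_open (D : IntermediateField ℚ AQ) [FiniteDimensional ℚ D] : IsOpen (fx D : Set (GF ℚ)) :=
  D.fixingSubgroup_isOpen

/-- the fixed field -/
noncomputable def ff (W : Subgroup (GF ℚ)) : IntermediateField ℚ AQ := IntermediateField.fixedField W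

lemma fx_ff {W : Subgroup (GF ℚ)} (hW : IsOpen (W : Set (GF ℚ))) : fx (ff W) = W :=
  InfiniteGalois.fixingSubgroup_fixedField ⟨W, Subgroup.isClosed_of_isOpen _ hW⟩

section
variable (j : AQ →ₐ[ℚ] ℂ)

lemma mem_range_j {x : ℂ} (hx : IsIntegral ℚ x) : x ∈ j.fieldRange := by
  have h1 : (Polynomial.map (algebraMap ℚ AQ) (minpoly ℚ x)).Splits := IsAlgClosed.splits _
  have h2 := h1.image_rootSet j
  have h3 : x ∈ (minpoly ℚ x).rootSet ℂ := by
    rw [Polynomial.mem_rootSet]
    exact ⟨minpoly.ne_zero hx, minpoly.aeval ℚ x⟩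
  rw [← h2] at h3
  obtain ⟨y, _, hy⟩ := h3
  exact ⟨y, hy⟩

lemma le_range_j (K : IntermediateField ℚ ℂ) [FiniteDimensional ℚ K] : K ≤ j.fieldRange := by
  intro x hx
  apply mem_range_j j
  have h1 : IsIntegral ℚ (⟨x, hx⟩ : K) := Algebra.IsIntegral.isIntegral _
  exact h1.map K.val

lemma map_comap_j (K : IntermediateField ℚ ℂ) [FiniteDimensional ℚ K] : (K.comap j).map j = K :=
  IntermediateField.map_comap_eq_self (le_range_j j K)

/-- the isomorphism of a field of complex numbers with a field of algebraic numbers -/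
noncomputable def eqj (K : IntermediateField ℚ ℂ) (K' : IntermediateField ℚ AQ) (h : K'.map j = K) : K' ≃ₐ[ℚ] K :=
  (IntermediateField.equivMap K' j).trans (IntermediateField.equivOfEq h)

lemma eqj_apply (K : IntermediateField ℚ ℂ) (K' : IntermediateField ℚ AQ) (h : K'.map j = K) (x : K') :
    ((eqj j K K' h x : K) : ℂ) = j x := rfl

lemma map_adjoin_roots {N : ℕ} (hN : 0 < N) : (IntermediateField.adjoin ℚ {z : AQ | z ^ N = 1}).map j =
    IntermediateField.adjoin ℚ {z : ℂ | z ^ N = 1} := by
  rw [IntermediateField.adjoin_map]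
  congr 1
  ext z
  constructor
  · rintro ⟨y, hy, rfl⟩
    have hy' : y ^ N = 1 := hy
    show (j y) ^ N = 1
    rw [← map_pow, hy', map_one]
  · intro hz
    have hz' : z ^ N = 1 := hz
    have h1 : IsIntegral ℚ z := IsIntegral.of_pow hN (by rw [hz']; exact isIntegral_one)
    obtain ⟨y, hy⟩ := mem_range_j j h1
    have hy' : j y = z := hy
    refine ⟨y, ?_, hy'⟩
    show y ^ N = 1
    apply j.toRingHom.injective
    show j (y ^ N) = j 1
    rw [map_pow, hy', hz', map_one]

/-- subfields of cyclotomic fields -/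
lemma comap_le {N : ℕ} (hN : 0 < N) {B : IntermediateField ℚ ℂ}
    (hB : B ≤ IntermediateField.adjoin ℚ {z : ℂ | z ^ N = 1}) :
    B.comap j ≤ IntermediateField.adjoin ℚ {z : AQ | z ^ N = 1} := by
  intro x hx
  have h1 : j x ∈ IntermediateField.adjoin ℚ {z : ℂ | z ^ N = 1} := hB hx
  rw [← map_adjoin_roots j hN] at h1
  obtain ⟨y, hy, hyx⟩ := h1
  have : y = x := j.toRingHom.injective hyx
  rwa [← this]

lemma finrank_eqj (K : IntermediateField ℚ ℂ) (K' : IntermediateField ℚ AQ) (h : K'.map j = K) :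
    finrank ℚ K' = finrank ℚ K := (eqj j K K' h).toLinearEquiv.finrank_eq

lemma finite_eqj (K : IntermediateField ℚ ℂ) (K' : IntermediateField ℚ AQ) (h : K'.map j = K)
    [FiniteDimensional ℚ K] : FiniteDimensional ℚ K' := (eqj j K K' h).symm.toLinearEquiv.finiteDimensional

end

end Pool.Agent.H55.MU
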