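import Pool.Agent.H55.MU.Asm2

/-!
# Assembly, part 3
-/

set_option autoImplicit false
set_option linter.style.haveILetI false
set_option linter.unusedSectionVars false
set_option linter.unusedVariables false

open NumberField Ideal Module Pool.Agent.W569.FM Pool.Agent.Helper832_EG
open scoped Pointwise nonZeroDivisors

namespace Pool.Agent.H55.MU

lemma conj_res {H0 : Subgroup (GF ℚ)} : ∀ I ∈ res (inertias ℚ) H0, ∀ x : H0,
    I.map (MulAut.conj x).toMonoidHom ∈ res (inertias ℚ) H0 := by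
  rintro _ ⟨_, ⟨P, hP, rfl⟩, rfl⟩ x
  obtain ⟨Q, _, h2, _, h4⟩ := exists_conj_ideal P (x : GF ℚ)
  refine ⟨inertia Q, ⟨Q, h2 hP, rfl⟩, ?_⟩
  rw [h4]
  ext y
  rw [Subgroup.mem_subgroupOf]
  constructor
  · rintro ⟨z, hz, rfl⟩
    exact ⟨z, Subgroup.mem_subgroupOf.1 hz, rfl⟩
  · rintro ⟨z, hz, hzy⟩
    have hz0 : z ∈ H0 := by
      have h5 : z = (x : GF ℚ)⁻¹ * y * x := by
        rw [← hzy]
        show z = (x : GF ℚ)⁻¹ * ((x : GF ℚ) * z * (x : GF ℚ)⁻¹) * x
        group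
      rw [h5]
      exact H0.mul_mem (H0.mul_mem (H0.inv_mem x.2) y.2) x.2
    exact ⟨⟨z, hz0⟩, Subgroup.mem_subgroupOf.2 hz, Subtype.ext hzy⟩

lemma ex_lift (k Ω : Type) [Field k] [Field Ω] [IsAlgClosed Ω] [Algebra k Ω] : Nonempty (AlgebraicClosure k →+* Ω) :=
  ⟨(IsAlgClosed.lift : AlgebraicClosure k →ₐ[k] Ω).toRingHom⟩

lemma clnum_congr {K L : Type} [Field K] [NumberField K] [Field L] [NumberField L] (e : K ≃+* L) :
    classNumber K = classNumber L := by
  rw [classNumber, classNumber]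
  exact Fintype.card_congr (ClassGroup.mulEquiv (RingOfIntegers.mapRingEquiv e)).toEquiv

/-- **Main theorem**, from the parts. -/
theorem main_bound (hHerb : S_HERB) (hDens : S_DENS) (hGT : S_GT) (hCyc : S_CYC) (hUnr : S_UNR)
    (hClno : S_CLNO) (K : IntermediateField ℚ ℂ) [FiniteDimensional ℚ K] : ∃ p₀ : ℕ, ∀ p : ℕ, p.Prime → p₀ ≤ p →
    ∃ C : ℕ, ∀ (m : ℕ) (B : IntermediateField ℚ ℂ),
      B ≤ IntermediateField.adjoin ℚ {z : ℂ | z ^ (p ^ (m + 1)) = 1} → finrank ℚ B = p ^ m →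
      ∀ [NumberField ↥(K ⊔ B)] (L : Type) [Field L] [NumberField L] [Algebra ↥(K ⊔ B) L]
        [IsGalois ↥(K ⊔ B) L] (k : ℕ), (∀ x y : Gal(L/↥(K ⊔ B)), x * y = y * x) →
        Nat.card Gal(L/↥(K ⊔ B)) = p ^ k →
        (∀ P : Ideal (𝓞 L), P.IsMaximal → P.ramificationIdx (𝓞 ↥(K ⊔ B)) = 1) →
        k ≤ finrank ℚ K * p ^ m + C * (m + 1) := by
  classical
  obtain ⟨j0⟩ := ex_lift ℚ ℂ
  let j : AQ →ₐ[ℚ] ℂ := RingHom.toRatAlgHom j0
  set K' : IntermediateField ℚ AQ := K.comap j with hK'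
  have hKK : K'.map j = K := map_comap_j j K
  haveI hKf : FiniteDimensional ℚ K' := finite_eqj j K K' hKK
  haveI : NumberField K' := NumberField.of_module_finite ℚ K'
  set H0 : Subgroup (GF ℚ) := fx K' with hH0
  have hH0o : IsOpen (H0 : Set (GF ℚ)) := fx_open K'
  obtain ⟨p1, hp1⟩ := hUnr K'
  obtain ⟨p2, hp2⟩ := hClno K
  set n := finrank ℚ K with hn
  refine ⟨max (max p1 p2) (max (classNumber K' + 1) 3), fun p hp hpp => ?_⟩
  haveI hpf : Fact p.Prime := ⟨hp⟩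
  have hpp1 : p1 ≤ p := le_trans (le_trans (le_max_left _ _) (le_max_left _ _)) hpp
  have hpp2 : p2 ≤ p := le_trans (le_trans (le_max_right _ _) (le_max_left _ _)) hpp
  have hpp3 : classNumber K' + 1 ≤ p := le_trans (le_trans (le_max_left _ _) (le_max_right _ _)) hpp
  have hpp4 : 3 ≤ p := le_trans (le_trans (le_max_right _ _) (le_max_right _ _)) hpp
  have hpne : p ≠ 2 := by omega
  obtain ⟨A, hA0, hAanti, hAopen, hAnorm, hAidx, hAgen, hAtame, hAwild, hAff, hAuniq⟩ := hCyc p hpne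
  have hwild : ∀ I ∈ wildI ℚ p, I ≤ H0 := hp1 p hp hpp1
  obtain ⟨I0, hI0⟩ := exists_wild (E := ℚ) (p := p)
  obtain ⟨x, hx⟩ : ∃ x : GF ℚ, x ∉ A 1 := by
    by_contra hcon
    push Not at hcon
    have h1 : A 1 = ⊤ := (Subgroup.eq_top_iff' _).2 hcon
    have h2 := hAidx 1
    rw [h1, Subgroup.index_top, pow_one] at h2
    omega
  obtain ⟨s, hs, hsx⟩ := hAwild I0 hI0 1 x
  have hsA : s ∉ A 1 := by
    intro h
    apply hx
    have h1 := (A 1).mul_mem ((A 1).inv_mem hsx) h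
    have h2 : (s * x⁻¹)⁻¹ * s = x := by group
    rwa [h2] at h1
  set Gm : ℕ → Subgroup H0 := fun m => (A m).subgroupOf H0 with hGm
  -- `H0` and `A m` generate
  have hsup : ∀ m, H0 ⊔ A m = ⊤ := by
    intro m
    rw [Subgroup.eq_top_iff']
    intro y
    obtain ⟨t, ht, hty⟩ := hAwild I0 hI0 m y
    have h1 : y = t * (t⁻¹ * y) := by group
    rw [h1]
    refine Subgroup.mul_mem_sup (hwild I0 hI0 ht) ?_
    have h2 := (hAnorm m).conj_mem _ ((A m).inv_mem hty) t⁻¹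
    have h3 : t⁻¹ * (t * y⁻¹)⁻¹ * t⁻¹⁻¹ = t⁻¹ * y := by group
    rwa [h3] at h2
  have hGidx : ∀ m, (Gm m).index = p ^ m := by
    intro m
    rw [← hAidx m]
    show (A m).relIndex H0 = (A m).index
    haveI := hAnorm m
    rw [← Subgroup.relIndex_sup_right (H := H0) (K := A m), hsup, Subgroup.relIndex_top_right]
  -- the fields of the layers
  set D : ℕ → IntermediateField ℚ AQ := fun i => K' ⊔ ff (A i) with hD
  have hfxff : ∀ i, fx (ff (A i)) = A i := fun i => fx_ff (hAopen i)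
  have hfr : ∀ i, finrank ℚ (ff (A i)) = p ^ i := fun i => (hAff i).2
  have hle : ∀ i, ff (A i) ≤ IntermediateField.adjoin ℚ {z : AQ | z ^ (p ^ (i + 1)) = 1} := fun i => (hAff i).1
  haveI hfin : ∀ i, FiniteDimensional ℚ (ff (A i)) := fun i =>
    FiniteDimensional.of_finrank_pos (by rw [hfr]; exact pow_pos hp.pos _)
  haveI hDfin : ∀ i, FiniteDimensional ℚ (D i) := fun i => IntermediateField.finiteDimensional_sup K' (ff (A i))
  haveI hDnf : ∀ i, NumberField (D i) := fun i => NumberField.of_module_finite ℚ (D i)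
  have hfxD : ∀ i, fx (D i) = H0 ⊓ A i := fun i => by
    rw [hD]
    show fx (K' ⊔ ff (A i)) = _
    rw [fx_sup, hfxff]
  have hDle : ∀ i, fx (D i) ≤ H0 := fun i => by rw [hfxD]; exact inf_le_left
  have hsub : ∀ i, Gm i = (fx (D i)).subgroupOf H0 := by
    intro i
    rw [hfxD]
    ext y
    rw [Subgroup.mem_subgroupOf, Subgroup.mem_subgroupOf]
    exact ⟨fun h => ⟨y.2, h⟩, fun h => h.2⟩
  -- upper bounds
  have hub : ∀ i W, Unr (res (inertias ℚ) H0) p (Gm i) W → W.relIndex (Gm i) ≤ classNumber (D i) := by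
    intro i W hW
    rw [hsub] at hW ⊢
    obtain ⟨h1, h2⟩ := unr_map (inertias ℚ) p (hDle i) hH0o hW
    rw [← h2]
    exact ub_grp hHerb hDens (k := ℚ) (D i) hp hpne _ h1
  have hub0 : ∀ W, Unr (res (inertias ℚ) H0) p ⊤ W → W = ⊤ := by
    intro W hW
    have h0 : (⊤ : Subgroup H0) = (fx K').subgroupOf H0 := (Subgroup.subgroupOf_self H0).symm
    have hW' := hW
    rw [h0] at hW'
    obtain ⟨h1, h2⟩ := unr_map (inertias ℚ) p (le_refl H0) hH0o hW'
    have h3 : (W.map H0.subtype).relIndex (fx K') ≤ classNumber K' := ub_grp hHerb hDens (k := ℚ) K' hp hpne _ h1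
    obtain ⟨a, ha⟩ := hW'.pp
    have h4 : (W.map H0.subtype).relIndex (fx K') = p ^ a := h2.trans ha
    have ha0 : a = 0 := by
      by_contra hne
      have h5 : p ^ 1 ≤ p ^ a := Nat.pow_le_pow_right hp.pos (by omega)
      rw [h4] at h3
      rw [pow_one] at h5
      omega
    rw [ha0, pow_zero] at ha
    have h6 := Subgroup.relIndex_eq_one.1 ha
    rw [← h0] at h6
    exact top_le_iff.1 h6
  have hub1 : ∀ W, Unr (res (inertias ℚ) H0) p (Gm 1) W → W.relIndex (Gm 1) ≤ p ^ ((n + 1) * (p - 1) - 1) := by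
    intro W hW
    have h1 := hub 1 W hW
    set B1 : IntermediateField ℚ ℂ := (ff (A 1)).map j with hB1
    have hB1r : finrank ℚ B1 = p := by
      rw [← finrank_eqj j B1 (ff (A 1)) rfl, hfr, pow_one]
    have hB1l : B1 ≤ IntermediateField.adjoin ℚ {z : ℂ | z ^ (p ^ 2) = 1} := by
      rw [hB1, ← map_adjoin_roots j (pow_pos hp.pos 2)]
      exact IntermediateField.map_mono j (hle 1)
    have hmap : (D 1).map j = K ⊔ B1 := by
      show (K' ⊔ ff (A 1)).map j = _
      rw [IntermediateField.map_sup, hKK]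
    haveI : FiniteDimensional ℚ B1 := FiniteDimensional.of_finrank_pos (by rw [hB1r]; exact hp.pos)
    haveI : FiniteDimensional ℚ ↥(K ⊔ B1) := IntermediateField.finiteDimensional_sup K B1
    haveI : NumberField ↥(K ⊔ B1) := NumberField.of_module_finite ℚ ↥(K ⊔ B1)
    have h2 := hp2 p hp hpp2 B1 hB1l hB1r
    have h3 : classNumber (D 1) = classNumber ↥(K ⊔ B1) := clnum_congr (eqj j (K ⊔ B1) (D 1) hmap).toRingEquiv
    rw [h3] at h1
    obtain ⟨a, ha⟩ := hW.pp
    rw [ha] at h1 ⊢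
    have h4 : p ^ a < p ^ ((n + 1) * (p - 1)) := lt_of_le_of_lt h1 h2
    have h5 : a < (n + 1) * (p - 1) := (Nat.pow_lt_pow_iff_right hp.one_lt).1 h4
    exact Nat.pow_le_pow_right hp.pos (by omega)
  have hl : ((n + 1) * (p - 1) - 1) / (p - 1) = n := by
    have h1 : (n + 1) * (p - 1) - 1 = (p - 2) + n * (p - 1) := by
      have : (n + 1) * (p - 1) = n * (p - 1) + (p - 1) := by ring
      omega
    rw [h1, Nat.add_mul_div_right _ _ (by omega), Nat.div_eq_of_lt (by omega), zero_add]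
  obtain ⟨C, hC⟩ := hGT H0 (res (inertias ℚ) H0) p ((n + 1) * (p - 1) - 1) Gm (fun i => classNumber (D i))
    ⟨s, hwild I0 hI0 hs⟩ conj_res (by
      show (A 0).subgroupOf H0 = ⊤
      rw [hA0]
      rfl) (fun a b hab y hy => hAanti hab hy) (fun m => (hAopen m).preimage continuous_subtype_val)
    (fun m => by haveI := hAnorm m; exact inferInstanceAs ((A m).subgroupOf H0).Normal) hGidx
    (fun m y => hAgen s hsA m y) ⟨I0.subgroupOf H0, ⟨I0, by rw [inertias_eq p]; exact Or.inl hI0, rfl⟩, hs⟩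
    (by
      rintro _ ⟨I, hI, rfl⟩
      rw [inertias_eq p] at hI
      rcases hI with hI | hI
      · right
        intro m
        obtain ⟨t, ht, htx⟩ := hAwild I hI m s
        exact ⟨⟨t, hwild I hI ht⟩, ht, htx⟩
      · left
        intro m y hy
        exact hAtame I hI m hy) hub0 hub hub1
  rw [hl] at hC
  refine ⟨C, fun m B hB hBr _ L _ _ _ _ k hab hcard hur => ?_⟩
  -- the layer
  haveI : FiniteDimensional ℚ B := FiniteDimensional.of_finrank_pos (by rw [hBr]; exact pow_pos hp.pos _)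
  set B' : IntermediateField ℚ AQ := B.comap j with hB'
  have hBB : B'.map j = B := map_comap_j j B
  have hB'l : B' ≤ IntermediateField.adjoin ℚ {z : AQ | z ^ (p ^ (m + 1)) = 1} := comap_le j (pow_pos hp.pos _) hB
  have hB'r : finrank ℚ B' = p ^ m := by rw [finrank_eqj j B B' hBB, hBr]
  have hB'A : fx B' = A m := hAuniq m B' hB'l hB'r
  have hmap : (K' ⊔ B').map j = K ⊔ B := by rw [IntermediateField.map_sup, hKK, hBB]
  set eE := eqj j (K ⊔ B) (K' ⊔ B') hmap with heE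
  let ε : ↥(K ⊔ B) →+* AQ := ((K' ⊔ B').val.toRingHom).comp eE.symm.toRingEquiv.toRingHom
  have hε : ∀ y : ↥(K ⊔ B), ε y = ((eE.symm y : ↥(K' ⊔ B')) : AQ) := fun y => rfl
  have hfxm : fx (K' ⊔ B') = H0 ⊓ A m := by rw [fx_sup, hB'A]
  obtain ⟨W, hW, hWi⟩ := cv2_main ↥(K ⊔ B) L ε (H0 ⊓ A m) (by
    intro g
    rw [← hfxm, mem_fx]
    constructor
    · intro h y
      rw [hε]
      exact h _ (eE.symm y).2
    · intro h y hy
      have h1 := h (eE ⟨y, hy⟩)
      rw [hε, AlgEquiv.symm_apply_apply] at h1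
      exact h1) hab hur p k hcard
  obtain ⟨h1, h2⟩ := unr_sub (inertias ℚ) p (inf_le_left : H0 ⊓ A m ≤ H0) hW
  have h3 : (H0 ⊓ A m).subgroupOf H0 = Gm m := by rw [hsub, hfxD]
  rw [h3] at h1 h2
  have h4 := hC m _ h1
  rw [h2, hWi] at h4
  exact (Nat.pow_le_pow_iff_right hp.one_lt).1 h4

end Pool.Agent.H55.MU
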