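import Pool.Agent.Helper832_EG.PD11
import Pool.Agent.H55.MU.GalStm

/-!
# From subgroups of the absolute Galois group to unramified abelian extensions of number fields
(adapted from `Pool/Agent/Helper832_EG/PD11.lean`)
-/

set_option autoImplicit false
set_option linter.style.haveILetI false
set_option linter.unusedSectionVars false
set_option linter.unusedVariables false

open NumberField Ideal Module IntermediateField Pool.Agent.W569.FM Pool.Agent.Helper832_EG
open scoped Pointwise nonZeroDivisors

namespace Pool.Agent.H55.MU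

theorem cv1 {k : Type} [Field k] [NumberField k] (D : IntermediateField k (AlgebraicClosure k))
    [FiniteDimensional k D] [NumberField D] (p : ℕ) (W : Subgroup (GF k)) (hW : Unr (inertias k) p D.fixingSubgroup W) :
    ∃ (M : IntermediateField D (AlgebraicClosure k)) (_ : NumberField M) (_ : IsGalois D M),
      (∀ x y : Gal(M/D), x * y = y * x) ∧ Nat.card Gal(M/D) = W.relIndex D.fixingSubgroup ∧
      ∀ P : Ideal (𝓞 M), P.IsMaximal → P.ramificationIdx (𝓞 D) = 1 := by
  classical
  set e : D.fixingSubgroup ≃* Gal(AlgebraicClosure k/D) := IntermediateField.fixingSubgroupEquiv D with he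
  have heval : ∀ (τ : Gal(AlgebraicClosure k/D)) (x : AlgebraicClosure k), ((e.symm τ : D.fixingSubgroup) : GF k) x = τ x :=
    fun τ x => rfl
  set W' : Subgroup Gal(AlgebraicClosure k/D) := (W.subgroupOf D.fixingSubgroup).comap e.symm.toMonoidHom with hW'
  have hmW' : ∀ τ, τ ∈ W' ↔ ((e.symm τ : D.fixingSubgroup) : GF k) ∈ W := fun τ => Iff.rfl
  have hWclosed : IsClosed (W : Set (GF k)) := Subgroup.isClosed_of_isOpen _ hW.opn
  set L : IntermediateField k (AlgebraicClosure k) := IntermediateField.fixedField W with hL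
  have hfixL : L.fixingSubgroup = W := InfiniteGalois.fixingSubgroup_fixedField ⟨W, hWclosed⟩
  haveI hLfin : FiniteDimensional k L :=
    (InfiniteGalois.isOpen_iff_finite L).1 (by rw [hfixL]; exact hW.opn)
  haveI hLnf : NumberField L := NumberField.of_module_finite k L
  have hKL : D ≤ L := by
    rw [hL, IntermediateField.le_iff_le]
    exact hW.le
  set M : IntermediateField D (AlgebraicClosure k) := IntermediateField.extendScalars hKL with hM
  have hMmem : ∀ x, x ∈ M ↔ x ∈ L := fun x => IntermediateField.mem_extendScalars hKL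
  have hfixM : M.fixingSubgroup = W' := by
    ext σ
    rw [hmW', ← hfixL, IntermediateField.mem_fixingSubgroup_iff, IntermediateField.mem_fixingSubgroup_iff]
    constructor
    · intro h x hx
      exact h x ((hMmem x).2 hx)
    · intro h x hx
      exact h x ((hMmem x).1 hx)
  haveI hMfin : NumberField M := by
    let eLM : L ≃+* M :=
      { toFun := fun x => ⟨x.1, (hMmem _).2 x.2⟩
        invFun := fun x => ⟨x.1, (hMmem _).1 x.2⟩
        left_inv := fun x => rfl
        right_inv := fun x => rfl
        map_mul' := fun x y => rfl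
        map_add' := fun x y => rfl }
    have hMfinQ : FiniteDimensional ℚ M := by
      let el : L ≃ₐ[ℚ] M := AlgEquiv.ofRingEquiv (f := eLM) (fun r => by simp)
      exact el.toLinearEquiv.finiteDimensional
    exact ⟨⟩
  haveI hGalD : IsGalois D (AlgebraicClosure k) := inferInstance
  have hcomm : ∀ x y : Gal(AlgebraicClosure k/D), x * y * x⁻¹ * y⁻¹ ∈ W' := by
    intro x y
    rw [hmW', map_mul, map_mul, map_mul, map_inv, map_inv]
    exact hW.comm _ (e.symm x).2 _ (e.symm y).2
  haveI hnormal : W'.Normal := by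
    refine ⟨fun x hx g => ?_⟩
    have := W'.mul_mem (hcomm g x) hx
    rwa [inv_mul_cancel_right] at this
  have hMgal : IsGalois D M := by
    apply (InfiniteGalois.normal_iff_isGalois M).1
    rw [hfixM]
    infer_instance
  have hker : (AlgEquiv.restrictNormalHom (F := D) (K₁ := AlgebraicClosure k) M).ker = W' := by
    rw [M.restrictNormalHom_ker, hfixM]
  have hsurj : Function.Surjective (AlgEquiv.restrictNormalHom (F := D) (K₁ := AlgebraicClosure k) M) :=
    AlgEquiv.restrictNormalHom_surjective (F := D) (K₁ := M) (AlgebraicClosure k)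
  refine ⟨M, hMfin, hMgal, ?_, ?_, ?_⟩
  · intro x y
    obtain ⟨x, rfl⟩ := hsurj x
    obtain ⟨y, rfl⟩ := hsurj y
    have h1 := hcomm x y
    rw [← hker, MonoidHom.mem_ker, map_mul, map_mul, map_mul, map_inv, map_inv] at h1
    rwa [mul_inv_eq_one, mul_inv_eq_iff_eq_mul] at h1
  · have h1 : Nat.card Gal(M/D) = W'.index := by
      rw [← hker, Subgroup.index_ker, MonoidHom.range_eq_top.2 hsurj, Subgroup.card_top]
    rw [h1, hW', Subgroup.index_comap_of_surjective _ e.symm.surjective]
    rfl
  · intro P hP
    haveI : Algebra.IsIntegral (𝓞 M) (𝓞 (AlgebraicClosure k)) := Algebra.IsIntegral.tower_top (R := ℤ)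
    obtain ⟨Q, hQm, hQP⟩ := Ideal.exists_maximal_ideal_liesOver_of_isIntegral (S := 𝓞 (AlgebraicClosure k)) P
    rw [← card_inertia (F := D) hP]
    have hbot : P.inertia Gal(M/D) = ⊥ := by
      rw [eq_bot_iff]
      intro γ hγ
      rw [Subgroup.mem_bot]
      obtain ⟨τ, hτ, hτγ⟩ := lift_inertia M P hP Q hQm hQP γ hγ
      have h1 : ((e.symm τ : D.fixingSubgroup) : GF k) ∈ inertia Q ⊓ D.fixingSubgroup :=
        ⟨fun x => hτ x, (e.symm τ).2⟩
      have h2 : τ ∈ W' := hW.unr _ ⟨Q, hQm, rfl⟩ h1
      rw [← hker, MonoidHom.mem_ker] at h2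
      rw [← hτγ, h2]
    rw [hbot]; simp

theorem cv1_main : S_CV1 := by
  intro D _ _ p W hW
  exact cv1 D p W hW

end Pool.Agent.H55.MU
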