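import Pool.Agent.Helper832_EG.PD8

/-!
# The first inequality for unramified cyclic extensions of odd prime power degree: invariant classes
(adapted from `Pool/Agent/Helper832_EG/PD5.lean`, `PD9.lean`)
-/

set_option autoImplicit false
set_option linter.style.haveILetI false
set_option linter.unusedSectionVars false
set_option linter.unusedVariables false

open NumberField Ideal Module Pool.Agent.TeamU Pool.Agent.Helper832_EG
open scoped Pointwise nonZeroDivisors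

namespace Pool.Agent.H55.MU

section
variable {K L : Type} [Field K] [NumberField K] [Field L] [NumberField L] [Algebra K L] [IsGalois K L]
  {n : ℕ} (hcard : Nat.card Gal(L/K) = n) {σ : Gal(L/K)} (hσ : ∀ g : Gal(L/K), g ∈ Subgroup.zpowers σ)
include hcard hσ

lemma norm_prod' (z : L) :
    algebraMap K L (Algebra.norm K z) = ∏ i ∈ Finset.range n, (σ ^ i) z := by
  classical
  haveI : IsCyclic Gal(L/K) := ⟨σ, hσ⟩
  have hord : orderOf σ = n := by rw [orderOf_eq_card_of_forall_mem_zpowers hσ, hcard]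
  rw [Algebra.norm_eq_prod_automorphisms]
  have h1 : (Finset.univ : Finset Gal(L/K)) = Finset.image (fun i => σ ^ i) (Finset.range n) := by
    rw [← hord, IsCyclic.image_range_orderOf hσ]
  rw [h1, Finset.prod_image]
  intro i hi j hj hij
  rw [← hord] at hi hj
  exact pow_injOn_Iio_orderOf (Finset.mem_range.1 (Finset.mem_coe.1 hi)) (Finset.mem_range.1 (Finset.mem_coe.1 hj)) hij

/-- Hilbert 90. -/
lemma h90n {y : (𝓞 L)ˣ} (hy : nU n σ y = 1) :
    ∃ b : 𝓞 L, b ≠ 0 ∧ σ • b = y * b := by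
  classical
  haveI : IsCyclic Gal(L/K) := ⟨σ, hσ⟩
  have hnorm : Algebra.norm K ((y : 𝓞 L) : L) = 1 := by
    apply (algebraMap K L).injective
    rw [norm_prod' hcard hσ, map_one]
    have h2 := congrArg (fun z : (𝓞 L)ˣ => ((z : 𝓞 L) : L)) hy
    have h3 : (((nU n σ y : (𝓞 L)ˣ) : 𝓞 L) : L) = ∏ i ∈ Finset.range n, (σ ^ i) ((y : 𝓞 L) : L) := by
      show (((∏ i ∈ Finset.range n, (sU σ)^[i] y : (𝓞 L)ˣ) : 𝓞 L) : L) = _
      rw [Units.coe_prod]
      refine (map_prod (algebraMap (𝓞 L) L) _ _).trans ?_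
      refine Finset.prod_congr rfl fun i _ => ?_
      rw [sU_iter]; rfl
    rw [← h3]
    simpa using h2
  have hnorm' : Algebra.norm K (algebraMap (𝓞 L) L ((y⁻¹ : (𝓞 L)ˣ) : 𝓞 L)) = 1 := by
    have h1 : algebraMap (𝓞 L) L ((y⁻¹ : (𝓞 L)ˣ) : 𝓞 L) = (((y : 𝓞 L) : L))⁻¹ := by
      refine eq_inv_of_mul_eq_one_left ?_
      rw [← map_mul, y.inv_mul, map_one]
    rw [h1, Algebra.norm_inv, hnorm, inv_one]
  obtain ⟨b, hb, hb'⟩ := groupCohomology.exists_mul_galRestrict_of_norm_eq_one (A := 𝓞 K) (K := K) (L := L) (B := 𝓞 L) hσ hnorm'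
  refine ⟨b, hb, ?_⟩
  have h1 : galRestrict (𝓞 K) K L (𝓞 L) σ b = σ • b := by
    apply FaithfulSMul.algebraMap_injective (𝓞 L) L
    rw [algebraMap_galRestrict_apply]; rfl
  rw [h1] at hb'
  calc σ • b = (y : 𝓞 L) * (((y⁻¹ : (𝓞 L)ˣ) : 𝓞 L) * σ • b) := by rw [← mul_assoc, y.mul_inv, one_mul]
    _ = y * b := by rw [hb']

end

section
variable {K L : Type} [Field K] [NumberField K] [Field L] [NumberField L] [Algebra K L] [IsGalois K L]

/-- The product of the conjugates. -/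
noncomputable def NN (n : ℕ) (σ : Gal(L/K)) (z : 𝓞 L) : 𝓞 L := ∏ i ∈ Finset.range n, (σ ^ i) • z

lemma NN_mul (n : ℕ) (σ : Gal(L/K)) (a b : 𝓞 L) : NN n σ (a * b) = NN n σ a * NN n σ b := by
  show ∏ i ∈ Finset.range n, (σ ^ i) • (a * b) = _
  rw [show NN n σ a * NN n σ b = ∏ i ∈ Finset.range n, ((σ ^ i) • a * (σ ^ i) • b) from Finset.prod_mul_distrib.symm]
  exact Finset.prod_congr rfl fun i _ => smul_mul' _ _ _

lemma NN_ne (n : ℕ) (σ : Gal(L/K)) {z : 𝓞 L} (hz : z ≠ 0) : NN n σ z ≠ 0 :=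
  Finset.prod_ne_zero_iff.2 fun i _ => (smul_ne_zero_iff_ne (σ ^ i)).2 hz

lemma smul_NN {n : ℕ} {σ : Gal(L/K)} (hn : σ ^ n = 1) (hn0 : n ≠ 0) (z : 𝓞 L) : σ • NN n σ z = NN n σ z := by
  have h1 : σ • NN n σ z = ∏ i ∈ Finset.range n, (σ ^ (i + 1)) • z := by
    show σ • (∏ i ∈ Finset.range n, (σ ^ i) • z) = _
    rw [Finset.smul_prod']
    exact Finset.prod_congr rfl fun i _ => by rw [smul_smul, ← pow_succ']
  rw [h1]
  have h2 := Finset.prod_range_succ' (fun i => (σ ^ i) • z) n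
  rw [Finset.prod_range_succ, hn, one_smul, pow_zero, one_smul] at h2
  by_cases hz : z = 0
  · subst hz
    simp [NN, hn0]
  · exact mul_right_cancel₀ hz h2.symm

lemma NN_smul {n : ℕ} {σ : Gal(L/K)} (hn : σ ^ n = 1) (hn0 : n ≠ 0) (z : 𝓞 L) : NN n σ (σ • z) = NN n σ z := by
  rw [← smul_NN hn hn0 z]
  show ∏ i ∈ Finset.range n, (σ ^ i) • (σ • z) = σ • (∏ i ∈ Finset.range n, (σ ^ i) • z)
  rw [Finset.smul_prod']
  exact Finset.prod_congr rfl fun i _ => by rw [smul_smul, smul_smul, ← pow_succ, ← pow_succ']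

lemma NN_unit (n : ℕ) (σ : Gal(L/K)) (u : (𝓞 L)ˣ) : NN n σ (u : 𝓞 L) = ((nU n σ u : (𝓞 L)ˣ) : 𝓞 L) := by
  show _ = ((∏ i ∈ Finset.range n, (sU σ)^[i] u : (𝓞 L)ˣ) : 𝓞 L)
  rw [Units.coe_prod]
  exact Finset.prod_congr rfl fun i _ => (sU_iter σ i u).symm

/-- If `(x) σ I = (y) I` then `N x` and `N y` differ by an invariant unit. -/
lemma exists_unit {n : ℕ} {σ : Gal(L/K)} (hn : σ ^ n = 1) (hn0 : n ≠ 0) {I : Ideal (𝓞 L)} (hI0 : I ≠ ⊥)
    {x y : 𝓞 L} (hx : x ≠ 0) (hxy' : Ideal.span {x} * (σ • I) = Ideal.span {y} * I) :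
    ∃ e : (𝓞 L)ˣ, e ∈ (dU σ).ker ∧ NN n σ x * e = NN n σ y := by
  have hspanN : Ideal.span {NN n σ x} = Ideal.span {NN n σ y} := by
    have h1 : ∀ i, Ideal.span {(σ ^ i) • x} * ((σ ^ (i + 1)) • I) =
        Ideal.span {(σ ^ i) • y} * ((σ ^ i) • I) := by
      intro i
      have h2 := congrArg (fun J => (σ ^ i) • J) hxy'
      simp only [smul_mul_ideal, smul_span, smul_smul, ← pow_succ] at h2
      exact h2
    have h3 : Ideal.span {NN n σ x} * ∏ i ∈ Finset.range n, ((σ ^ (i + 1)) • I) =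
        Ideal.span {NN n σ y} * ∏ i ∈ Finset.range n, ((σ ^ i) • I) := by
      have h4 : ∀ z, Ideal.span {NN n σ z} = ∏ i ∈ Finset.range n, Ideal.span {(σ ^ i) • z} := fun z =>
        (Ideal.prod_span_singleton _ _).symm
      rw [h4, h4, ← Finset.prod_mul_distrib, ← Finset.prod_mul_distrib]
      exact Finset.prod_congr rfl fun i _ => h1 i
    have h5 : ∏ i ∈ Finset.range n, ((σ ^ (i + 1)) • I) =
        ∏ i ∈ Finset.range n, ((σ ^ i) • I) := by
      have h2 := Finset.prod_range_succ' (fun i => (σ ^ i) • I) n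
      rw [Finset.prod_range_succ, hn, one_smul, pow_zero, one_smul] at h2
      exact (mul_right_cancel₀ hI0 h2).symm
    rw [h5] at h3
    refine mul_right_cancel₀ ?_ h3
    refine Finset.prod_ne_zero_iff.2 fun i _ => ?_
    intro h
    have h6 : (σ ^ i)⁻¹ • ((σ ^ i) • I) = (σ ^ i)⁻¹ • (0 : Ideal (𝓞 L)) := by rw [h]
    rw [inv_smul_smul, Ideal.pointwise_smul_def] at h6
    exact hI0 (h6.trans Ideal.map_bot)
  rw [Ideal.span_singleton_eq_span_singleton] at hspanN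
  obtain ⟨e, he⟩ := hspanN
  refine ⟨e, ?_, he⟩
  have he' : sU σ e = e := by
    apply Units.ext
    rw [sU_coe]
    have h1 := congrArg (fun z => σ • z) he
    simp only [smul_mul', smul_NN hn hn0] at h1
    rw [← he] at h1
    exact mul_left_cancel₀ (NN_ne n σ hx) h1
  exact div_eq_one.2 he'

/-- **Lemma L1.** -/
lemma exists_inv {n : ℕ} (hcard : Nat.card Gal(L/K) = n) {σ : Gal(L/K)} (hσ : ∀ g : Gal(L/K), g ∈ Subgroup.zpowers σ)
    {I : Ideal (𝓞 L)} (hI0 : I ≠ ⊥) {x y : 𝓞 L} (hx : x ≠ 0) (hy : y ≠ 0)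
    (hxy' : Ideal.span {x} * (σ • I) = Ideal.span {y} * I) {η : (𝓞 L)ˣ}
    (hN : NN n σ y = NN n σ ((η : 𝓞 L) * x)) :
    ∃ b : 𝓞 L, b ≠ 0 ∧ σ • (Ideal.span {b} * I) = Ideal.span {b} * I := by
  classical
  haveI : IsCyclic Gal(L/K) := ⟨σ, hσ⟩
  set t : L := (y : L) / (((η : 𝓞 L) : L) * (x : L)) with ht
  have hcoe : ∀ z : 𝓞 L, ((NN n σ z : 𝓞 L) : L) = ∏ i ∈ Finset.range n, (σ ^ i) (z : L) := by
    intro z
    refine (map_prod (algebraMap (𝓞 L) L) _ _).trans ?_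
    exact Finset.prod_congr rfl fun i _ => rfl
  have hηx : (((η : 𝓞 L) : L) * (x : L)) ≠ 0 := by
    have : ((((η : 𝓞 L) * x : 𝓞 L)) : L) ≠ 0 := by
      rw [Ne, RingOfIntegers.coe_eq_zero_iff]
      exact mul_ne_zero η.ne_zero hx
    simpa using this
  have hyL : (y : L) ≠ 0 := by rw [Ne, RingOfIntegers.coe_eq_zero_iff]; exact hy
  have hnorm : Algebra.norm K t = 1 := by
    apply (algebraMap K L).injective
    rw [norm_prod' hcard hσ, map_one, ht]
    have h1 : ∀ i ∈ Finset.range n, (σ ^ i) ((y : L) / (((η : 𝓞 L) : L) * (x : L))) =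
        (σ ^ i) (y : L) / (σ ^ i) ((((η : 𝓞 L) * x : 𝓞 L)) : L) := by
      intro i _
      rw [map_div₀]
      congr 1
    rw [Finset.prod_congr rfl h1, Finset.prod_div_distrib, ← hcoe, ← hcoe, hN, div_self]
    rw [Ne, RingOfIntegers.coe_eq_zero_iff]
    exact NN_ne n σ (mul_ne_zero η.ne_zero hx)
  obtain ⟨z, hz⟩ := groupCohomology.exists_div_of_norm_eq_one hσ hnorm
  -- clear denominators
  have halg : IsAlgebraic ℤ (z : L) := (IsFractionRing.isAlgebraic_iff ℤ ℚ L).2 (Algebra.IsAlgebraic.isAlgebraic _)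
  obtain ⟨m, hm, hint⟩ := halg.exists_integral_multiple
  let b : 𝓞 L := ⟨m • (z : L), hint⟩
  have hbz : (b : L) = m • (z : L) := rfl
  have hb0 : b ≠ 0 := by
    intro h
    have h1 : (b : L) = 0 := by rw [h]; rfl
    rw [hbz, smul_eq_zero] at h1
    exact h1.elim hm z.ne_zero
  have hσb : ((σ • b : 𝓞 L) : L) = m • σ (z : L) := by
    show σ (m • (z : L)) = _
    rw [map_zsmul]
  have hσz : σ (z : L) ≠ 0 := (map_ne_zero σ).2 z.ne_zero
  have hrel : y * (σ • b) = (η : 𝓞 L) * x * b := by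
    apply RingOfIntegers.coe_injective
    show algebraMap (𝓞 L) L (y * (σ • b)) = algebraMap (𝓞 L) L ((η : 𝓞 L) * x * b)
    rw [map_mul, map_mul, map_mul]
    have h1 : (z : L) / σ (z : L) = (y : L) / (((η : 𝓞 L) : L) * (x : L)) := hz
    rw [div_eq_div_iff hσz hηx] at h1
    have h2 : algebraMap (𝓞 L) L (σ • b) = m • σ (z : L) := hσb
    have h3 : algebraMap (𝓞 L) L b = m • (z : L) := hbz
    rw [h2, h3, mul_smul_comm, mul_smul_comm]
    congr 1
    have h4 : (y : L) * σ (z : L) = (z : L) * (((η : 𝓞 L) : L) * (x : L)) := h1.symm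
    rw [h4]; ring
  refine ⟨b, hb0, ?_⟩
  have hx0 : Ideal.span {x} ≠ (0 : Ideal (𝓞 L)) := by simpa using hx
  apply mul_left_cancel₀ hx0
  rw [smul_mul_ideal, smul_span]
  calc Ideal.span {x} * (Ideal.span {σ • b} * (σ • I))
      = Ideal.span {σ • b} * (Ideal.span {x} * (σ • I)) := by ring
    _ = Ideal.span {σ • b} * (Ideal.span {y} * I) := by rw [hxy']
    _ = Ideal.span {y * (σ • b)} * I := by
        rw [← mul_assoc, Ideal.span_singleton_mul_span_singleton, mul_comm y]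
    _ = Ideal.span {(η : 𝓞 L) * x * b} * I := by rw [hrel]
    _ = Ideal.span {x * b} * I := by
        congr 1
        rw [mul_assoc]
        exact Ideal.span_singleton_mul_left_unit η.isUnit _
    _ = Ideal.span {x} * (Ideal.span {b} * I) := by
        rw [← mul_assoc, Ideal.span_singleton_mul_span_singleton]

lemma inv_gen {σ : Gal(L/K)} (hσ : ∀ g : Gal(L/K), g ∈ Subgroup.zpowers σ) {I : Ideal (𝓞 L)} (h : σ • I = I)
    (g : Gal(L/K)) : g • I = I := by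
  have h3 : σ ∈ MulAction.stabilizer Gal(L/K) I := h
  obtain ⟨n, rfl⟩ := Subgroup.mem_zpowers_iff.1 (hσ g)
  exact Subgroup.zpow_mem _ h3 n

/-- Invariant ideals come from below in unramified extensions. -/
lemma desc_ur (hur : ∀ Q : Ideal (𝓞 L), Q.IsMaximal → Q.ramificationIdx (𝓞 K) = 1) {σ : Gal(L/K)}
    (hσ : ∀ g : Gal(L/K), g ∈ Subgroup.zpowers σ) {I : Ideal (𝓞 L)} (hI : I ≠ ⊥) (h : σ • I = I) :
    ∃ a : Ideal (𝓞 K), I = a.map (algebraMap (𝓞 K) (𝓞 L)) :=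
  descent (K := K) _ I hI le_rfl (inv_gen hσ h) (fun Q hQ => by rw [hur Q hQ]; exact one_dvd _)

lemma mem_range_ext {I : Ideal (𝓞 L)} (hI : I ≠ ⊥) {b : 𝓞 L} (hb : b ≠ 0) {a : Ideal (𝓞 K)}
    (ha : Ideal.span {b} * I = a.map (algebraMap (𝓞 K) (𝓞 L))) :
    ClassGroup.mk0 (⟨I, mem_nonZeroDivisors_of_ne_zero hI⟩ : (Ideal (𝓞 L))⁰) ∈
      (ClassGroup.extendedHom (𝓞 K) (𝓞 L)).range := by
  have ha0 : a ≠ ⊥ := by
    rintro rfl
    rw [Ideal.map_bot] at ha
    have h1 : Ideal.span {b} ≠ (0 : Ideal (𝓞 L)) := by simpa using hb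
    exact mul_ne_zero h1 hI ha
  refine ⟨ClassGroup.mk0 ⟨a, mem_nonZeroDivisors_of_ne_zero ha0⟩, ?_⟩
  rw [ClassGroup.extendedHom_mk0]
  refine ClassGroup.mk0_eq_mk0_iff.2 ⟨1, b, one_ne_zero, hb, ?_⟩
  show Ideal.span {1} * (a.map (algebraMap (𝓞 K) (𝓞 L))) = Ideal.span {b} * I
  rw [ha, Ideal.span_singleton_one, Ideal.top_mul]

end

end Pool.Agent.H55.MU
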