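import Pool.Agent.H55.MU.FI1

/-!
# The first inequality: class group part
-/

set_option autoImplicit false
set_option linter.style.haveILetI false
set_option linter.unusedSectionVars false
set_option linter.unusedVariables false

open NumberField Ideal Module Pool.Agent.TeamU Pool.Agent.Helper832_EG
open scoped Pointwise nonZeroDivisors

namespace Pool.Agent.H55.MU

/-- Lagrange for a relative index -/
lemma card_sub_mul {A : Type*} [CommGroup A] (H K : Subgroup A) (h : H ≤ K) :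
    H.relIndex K * Nat.card H = Nat.card K := by
  have h1 := Subgroup.card_mul_index (H.subgroupOf K)
  rw [Subgroup.relIndex, mul_comm, ← h1]
  congr 1
  exact (Nat.card_congr (Subgroup.subgroupOfEquivOfLe h).toEquiv).symm

/-- a map with small fibres bounds the relative index -/
lemma relIndex_le_of {A B : Type*} [CommGroup A] [CommGroup B] (J H : Subgroup A) (V W : Subgroup B)
    (hfin : W.relIndex V ≠ 0) (F : A → B) (hF : ∀ c ∈ H, F c ∈ V)
    (hFF : ∀ c ∈ H, ∀ c' ∈ H, (F c)⁻¹ * F c' ∈ W → c⁻¹ * c' ∈ J) : J.relIndex H ≤ W.relIndex V := by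
  classical
  rw [Subgroup.relIndex, Subgroup.relIndex, Subgroup.index_eq_card, Subgroup.index_eq_card]
  haveI : Finite (V ⧸ W.subgroupOf V) := by
    apply Nat.finite_of_card_ne_zero
    rwa [← Subgroup.index_eq_card]
  refine Nat.card_le_card_of_injective
    (fun c : H ⧸ J.subgroupOf H => (QuotientGroup.mk ⟨F (c.out : A), hF _ c.out.2⟩ : V ⧸ W.subgroupOf V)) ?_
  intro c c' hcc
  have h1 := QuotientGroup.eq.1 hcc
  rw [Subgroup.mem_subgroupOf] at h1
  have h2 := hFF _ c.out.2 _ c'.out.2 h1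
  have h3 : (QuotientGroup.mk c.out : H ⧸ J.subgroupOf H) = QuotientGroup.mk c'.out :=
    QuotientGroup.eq.2 ((Subgroup.mem_subgroupOf).2 h2)
  have h4 : ∀ q : H ⧸ J.subgroupOf H, QuotientGroup.mk q.out = q := fun q => Quotient.out_eq q
  rwa [h4, h4] at h3

section
variable {K L : Type} [Field K] [NumberField K] [Field L] [NumberField L] [Algebra K L] [IsGalois K L]

/-- the map `σ - 1` on the class group -/
noncomputable def dC (σ : Gal(L/K)) : ClassGroup (𝓞 L) →* ClassGroup (𝓞 L) where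
  toFun c := sC σ c / c
  map_one' := by simp
  map_mul' a b := by rw [map_mul]; exact mul_div_mul_comm _ _ _ _

lemma relNorm_ne {I : Ideal (𝓞 L)} (hI : I ≠ ⊥) : Ideal.relNorm (𝓞 K) I ≠ ⊥ := by
  rw [Ne, Ideal.relNorm_eq_bot_iff]; exact hI

variable (K L) in
/-- the norm of ideals as a map on nonzero ideals -/
noncomputable def nI : (Ideal (𝓞 L))⁰ →* (Ideal (𝓞 K))⁰ where
  toFun I := ⟨Ideal.relNorm (𝓞 K) (I : Ideal (𝓞 L)),
    mem_nonZeroDivisors_of_ne_zero (relNorm_ne (nonZeroDivisors.coe_ne_zero I))⟩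
  map_one' := Subtype.ext (map_one _)
  map_mul' I J := Subtype.ext (map_mul _ _ _)

lemma nI_wd {I J : (Ideal (𝓞 L))⁰} (h : ClassGroup.mk0 I = ClassGroup.mk0 J) :
    ClassGroup.mk0 (nI K L I) = ClassGroup.mk0 (nI K L J) := by
  obtain ⟨x, y, hx, hy, hxy⟩ := ClassGroup.mk0_eq_mk0_iff.1 h
  refine ClassGroup.mk0_eq_mk0_iff.2 ⟨Algebra.intNorm (𝓞 K) (𝓞 L) x, Algebra.intNorm (𝓞 K) (𝓞 L) y, ?_, ?_, ?_⟩
  · exact Algebra.intNorm_ne_zero.2 hx
  · exact Algebra.intNorm_ne_zero.2 hy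
  · show Ideal.span {_} * (Ideal.relNorm (𝓞 K) (I : Ideal (𝓞 L))) = Ideal.span {_} * (Ideal.relNorm (𝓞 K) (J : Ideal (𝓞 L)))
    rw [← Ideal.relNorm_singleton, ← Ideal.relNorm_singleton, ← map_mul, ← map_mul, hxy]

variable (K L) in
/-- the norm map of class groups -/
noncomputable def nC : ClassGroup (𝓞 L) →* ClassGroup (𝓞 K) where
  toFun c := ClassGroup.mk0 (nI K L (ClassGroup.mk0_surjective c).choose)
  map_one' := by
    have h1 := nI_wd (K := K) (I := (ClassGroup.mk0_surjective (1 : ClassGroup (𝓞 L))).choose) (J := 1)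
      (by rw [(ClassGroup.mk0_surjective (1 : ClassGroup (𝓞 L))).choose_spec, map_one])
    rw [map_one (nI K L), map_one ClassGroup.mk0] at h1
    exact h1
  map_mul' c d := by
    rw [← map_mul, ← map_mul]
    apply nI_wd
    rw [map_mul, (ClassGroup.mk0_surjective c).choose_spec, (ClassGroup.mk0_surjective d).choose_spec,
      (ClassGroup.mk0_surjective (c * d)).choose_spec]

lemma nC_mk0 (I : (Ideal (𝓞 L))⁰) : nC K L (ClassGroup.mk0 I) = ClassGroup.mk0 (nI K L I) :=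
  nI_wd (ClassGroup.mk0_surjective (ClassGroup.mk0 I)).choose_spec

lemma nC_sC (σ : Gal(L/K)) (c : ClassGroup (𝓞 L)) : nC K L (sC σ c) = nC K L c := by
  haveI : IsGaloisGroup Gal(L/K) (𝓞 K) (𝓞 L) := isGalGrp
  obtain ⟨I, rfl⟩ := ClassGroup.mk0_surjective c
  rw [sC_mk0, nC_mk0, nC_mk0]
  congr 1
  apply Subtype.ext
  show Ideal.relNorm (𝓞 K) (σ • (I : Ideal (𝓞 L))) = Ideal.relNorm (𝓞 K) (I : Ideal (𝓞 L))
  exact Ideal.relNorm_smul (𝓞 K) σ _

/-- primes of residue degree one have class in the image of the norm -/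
lemma mem_range_nC {Q : Ideal (𝓞 L)} (hQ : Q.IsMaximal)
    (hN : Ideal.absNorm Q = Ideal.absNorm (Q.under (𝓞 K)))
    (h : Q.under (𝓞 K) ∈ nonZeroDivisors (Ideal (𝓞 K))) :
    ClassGroup.mk0 ⟨Q.under (𝓞 K), h⟩ ∈ (nC K L).range := by
  have hQ0 : Q ≠ ⊥ := Ideal.IsMaximal.ne_bot_of_isIntegral_int Q
  refine ⟨ClassGroup.mk0 ⟨Q, mem_nonZeroDivisors_of_ne_zero hQ0⟩, ?_⟩
  rw [nC_mk0]
  congr 1
  apply Subtype.ext
  show Ideal.relNorm (𝓞 K) Q = Q.under (𝓞 K)
  haveI : Algebra.IsIntegral (𝓞 K) (𝓞 L) := Algebra.IsIntegral.tower_top (R := ℤ)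
  haveI hq : (Q.under (𝓞 K)).IsMaximal := Ideal.IsMaximal.under (𝓞 K) Q
  haveI : Q.LiesOver (Q.under (𝓞 K)) := ⟨rfl⟩
  haveI := hQ.isPrime
  obtain ⟨s, hs⟩ := Ideal.exists_relNorm_eq_pow_of_isPrime Q (Q.under (𝓞 K))
  have h1 : Ideal.absNorm (Ideal.relNorm (𝓞 K) Q) = Ideal.absNorm Q := Ideal.absNorm_relNorm (R := 𝓞 K) (S := 𝓞 L) (I := Q)
  rw [hs, map_pow, hN] at h1
  have hq1 : Ideal.absNorm (Q.under (𝓞 K)) ≠ 1 := fun h => hq.ne_top (Ideal.absNorm_eq_one_iff.1 h)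
  have hq0 : Ideal.absNorm (Q.under (𝓞 K)) ≠ 0 := fun h0 => by
    have := Ideal.absNorm_eq_zero_iff.1 h0
    exact nonZeroDivisors.ne_zero h this
  have hs1 : s = 1 := by
    have h3 : 1 < Ideal.absNorm (Q.under (𝓞 K)) := by omega
    exact Nat.pow_right_injective h3 (by simpa using h1)
  rw [hs, hs1, pow_one]

variable {n : ℕ} (hcard : Nat.card Gal(L/K) = n) {σ : Gal(L/K)} (hσ : ∀ g : Gal(L/K), g ∈ Subgroup.zpowers σ)
  (hur : ∀ Q : Ideal (𝓞 L), Q.IsMaximal → Q.ramificationIdx (𝓞 K) = 1)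
include hcard hσ hur

/-- **(3)** -/
lemma relIndex_le_card_ker :
    (dU σ).range.relIndex (nU n σ).ker ≤ Nat.card (ClassGroup.extendedHom (𝓞 K) (𝓞 L)).ker := by
  classical
  have hex : ∀ y : (𝓞 L)ˣ, ∃ (b : 𝓞 L) (a : Ideal (𝓞 K)), y ∈ (nU n σ).ker → b ≠ 0 ∧ σ • b = y * b ∧
      Ideal.span {b} = a.map (algebraMap (𝓞 K) (𝓞 L)) ∧ a ≠ ⊥ := by
    intro y
    by_cases hy : y ∈ (nU n σ).ker
    · obtain ⟨b, hb, hyb⟩ := h90n hcard hσ ((MonoidHom.mem_ker).1 hy)
      have hb0 : Ideal.span {b} ≠ (⊥ : Ideal (𝓞 L)) := by simpa using hb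
      obtain ⟨a, ha⟩ := desc_ur hur hσ hb0 (by
        rw [smul_span, hyb]
        exact Ideal.span_singleton_mul_left_unit y.isUnit b)
      refine ⟨b, a, fun _ => ⟨hb, hyb, ha, ?_⟩⟩
      rintro rfl
      rw [Ideal.map_bot] at ha
      exact hb0 ha
    · exact ⟨0, ⊥, fun h => absurd h hy⟩
  choose b a hba using hex
  let F : (𝓞 L)ˣ → ClassGroup (𝓞 K) := fun y =>
    if h : a y ≠ ⊥ then ClassGroup.mk0 ⟨a y, mem_nonZeroDivisors_of_ne_zero h⟩ else 1
  have h1 : (dU σ).range.relIndex (nU n σ).ker ≤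
      (⊥ : Subgroup (ClassGroup (𝓞 K))).relIndex (ClassGroup.extendedHom (𝓞 K) (𝓞 L)).ker := by
    refine relIndex_le_of (dU σ).range (nU n σ).ker (ClassGroup.extendedHom (𝓞 K) (𝓞 L)).ker ⊥ ?_ F ?_ ?_
    · rw [Subgroup.relIndex_bot_left]; exact Nat.card_pos.ne'
    · intro y hy
      obtain ⟨hb, hyb, hab, ha0⟩ := hba y hy
      have hF : F y = ClassGroup.mk0 ⟨a y, mem_nonZeroDivisors_of_ne_zero ha0⟩ := dif_pos ha0
      rw [MonoidHom.mem_ker, hF, ClassGroup.extendedHom_mk0, ClassGroup.mk0_eq_one_iff]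
      show (Ideal.map _ (a y)).IsPrincipal
      rw [← hab]
      exact ⟨⟨_, rfl⟩⟩
    · intro y hy y' hy' hyy
      obtain ⟨hb, hyb, hab, ha0⟩ := hba y hy
      obtain ⟨hb', hyb', hab', ha0'⟩ := hba y' hy'
      have hF : F y = ClassGroup.mk0 ⟨a y, mem_nonZeroDivisors_of_ne_zero ha0⟩ := dif_pos ha0
      have hF' : F y' = ClassGroup.mk0 ⟨a y', mem_nonZeroDivisors_of_ne_zero ha0'⟩ := dif_pos ha0'
      rw [Subgroup.mem_bot, inv_mul_eq_one, hF, hF'] at hyy
      obtain ⟨c, c', hc, hc', hcc⟩ := ClassGroup.mk0_eq_mk0_iff.1 hyy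
      have hcc' : Ideal.span {c} * a y = Ideal.span {c'} * a y' := hcc
      have h2 := congrArg (Ideal.map (algebraMap (𝓞 K) (𝓞 L))) hcc'
      rw [Ideal.map_mul, Ideal.map_mul, ← hab, ← hab', Ideal.map_span, Ideal.map_span, Set.image_singleton,
        Set.image_singleton, Ideal.span_singleton_mul_span_singleton, Ideal.span_singleton_mul_span_singleton,
        Ideal.span_singleton_eq_span_singleton] at h2
      obtain ⟨e, he⟩ := h2
      -- `c b e = c' b'`
      refine ⟨e, ?_⟩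
      show sU σ e / e = _
      rw [div_eq_iff_eq_mul]
      apply Units.ext
      rw [sU_coe, Units.val_mul, Units.val_mul]
      have h3 := congrArg (fun z => σ • z) he
      simp only [smul_mul', smul_algebraMap, hyb, hyb'] at h3
      -- `c (y b) σ e = c' y' b'`
      have hc0 : algebraMap (𝓞 K) (𝓞 L) c ≠ 0 := by
        rw [Ne, FaithfulSMul.algebraMap_eq_zero_iff]; exact hc
      have h4 : algebraMap (𝓞 K) (𝓞 L) c * b y * ((y : 𝓞 L) * σ • (e : 𝓞 L)) =
          algebraMap (𝓞 K) (𝓞 L) c * b y * ((y' : 𝓞 L) * e) := by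
        calc algebraMap (𝓞 K) (𝓞 L) c * b y * ((y : 𝓞 L) * σ • (e : 𝓞 L))
            = algebraMap (𝓞 K) (𝓞 L) c * ((y : 𝓞 L) * b y) * σ • (e : 𝓞 L) := by ring
          _ = algebraMap (𝓞 K) (𝓞 L) c' * ((y' : 𝓞 L) * b y') := h3
          _ = (y' : 𝓞 L) * (algebraMap (𝓞 K) (𝓞 L) c' * b y') := by ring
          _ = (y' : 𝓞 L) * (algebraMap (𝓞 K) (𝓞 L) c * b y * e) := by rw [he]
          _ = _ := by ring
      have h5 := mul_left_cancel₀ (mul_ne_zero hc0 hb) h4
      calc σ • (e : 𝓞 L) = ((y⁻¹ : (𝓞 L)ˣ) : 𝓞 L) * ((y : 𝓞 L) * σ • (e : 𝓞 L)) := by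
            rw [← mul_assoc, y.inv_mul, one_mul]
        _ = _ := by rw [h5]; ring
  rwa [Subgroup.relIndex_bot_left] at h1

/-- **(2)** -/
lemma relIndex_le_units (hn0 : n ≠ 0) (hfin : (nU n σ).range.relIndex (dU σ).ker ≠ 0) :
    (ClassGroup.extendedHom (𝓞 K) (𝓞 L)).range.relIndex (dC σ).ker ≤
      (nU n σ).range.relIndex (dU σ).ker := by
  classical
  have hn : σ ^ n = 1 := by rw [← hcard]; exact pow_card_eq_one'
  have hex : ∀ c : ClassGroup (𝓞 L), ∃ (I : (Ideal (𝓞 L))⁰) (x y : 𝓞 L) (e : (𝓞 L)ˣ), c ∈ (dC σ).ker →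
      ClassGroup.mk0 I = c ∧ x ≠ 0 ∧ y ≠ 0 ∧ Ideal.span {x} * (σ • (I : Ideal (𝓞 L))) = Ideal.span {y} * I ∧
      e ∈ (dU σ).ker ∧ NN n σ x * e = NN n σ y := by
    intro c
    by_cases hc : c ∈ (dC σ).ker
    · obtain ⟨I, rfl⟩ := ClassGroup.mk0_surjective c
      have h1 : sC σ (ClassGroup.mk0 I) = ClassGroup.mk0 I := div_eq_one.1 hc
      rw [sC_mk0] at h1
      obtain ⟨x, y, hx, hy, hxy⟩ := ClassGroup.mk0_eq_mk0_iff.1 h1
      obtain ⟨e, he1, he2⟩ := exists_unit hn hn0 (nonZeroDivisors.coe_ne_zero I) hx hxy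
      exact ⟨I, x, y, e, fun _ => ⟨rfl, hx, hy, hxy, he1, he2⟩⟩
    · exact ⟨1, 1, 1, 1, fun h => absurd h hc⟩
  choose I x y e hI using hex
  refine relIndex_le_of _ _ _ _ hfin e (fun c hc => (hI c hc).2.2.2.2.1) ?_
  intro c hc c' hc' hcc
  obtain ⟨hmk, hx, hy, hxy, he, hN⟩ := hI c hc
  obtain ⟨hmk', hx', hy', hxy', he', hN'⟩ := hI c' hc'
  obtain ⟨η, hη⟩ := hcc
  obtain ⟨J, hJ⟩ := ClassGroup.mk0_surjective (c⁻¹ * c')
  have hJ0 : (J : Ideal (𝓞 L)) ≠ ⊥ := nonZeroDivisors.coe_ne_zero J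
  have hI0 : (I c : Ideal (𝓞 L)) ≠ ⊥ := nonZeroDivisors.coe_ne_zero _
  have h1 : ClassGroup.mk0 (I c') = ClassGroup.mk0 (I c * J) := by
    rw [map_mul, hmk, hJ, hmk', mul_inv_cancel_left]
  obtain ⟨a, b, ha, hb, hab⟩ := ClassGroup.mk0_eq_mk0_iff.1 h1
  have hab1 : Ideal.span {a} * (I c' : Ideal (𝓞 L)) = Ideal.span {b} * ((I c : Ideal (𝓞 L)) * J) := hab
  have hab2 : Ideal.span {σ • a} * (σ • (I c' : Ideal (𝓞 L))) =
      Ideal.span {σ • b} * ((σ • (I c : Ideal (𝓞 L))) * (σ • (J : Ideal (𝓞 L)))) := by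
    have := congrArg (fun Z => σ • Z) hab1
    simpa only [smul_mul_ideal, smul_span] using this
  have hσa : σ • a ≠ 0 := (smul_ne_zero_iff_ne σ).2 ha
  have hσb : σ • b ≠ 0 := (smul_ne_zero_iff_ne σ).2 hb
  -- `(a x' (σ b) y) σ J = (x (σ a) y' b) J`
  have hrel : Ideal.span {a * x (c') * (σ • b) * y c} * (σ • (J : Ideal (𝓞 L))) =
      Ideal.span {x c * (σ • a) * y c' * b} * (J : Ideal (𝓞 L)) := by
    apply mul_right_cancel₀ hI0
    simp only [← Ideal.span_singleton_mul_span_singleton]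
    calc Ideal.span {a} * Ideal.span {x c'} * Ideal.span {σ • b} * Ideal.span {y c} * (σ • (J : Ideal (𝓞 L))) * (I c : Ideal (𝓞 L))
        = Ideal.span {a} * Ideal.span {x c'} * Ideal.span {σ • b} * (σ • (J : Ideal (𝓞 L))) *
            (Ideal.span {y c} * (I c : Ideal (𝓞 L))) := by ring
      _ = Ideal.span {a} * Ideal.span {x c'} * Ideal.span {σ • b} * (σ • (J : Ideal (𝓞 L))) *
            (Ideal.span {x c} * (σ • (I c : Ideal (𝓞 L)))) := by rw [hxy]
      _ = Ideal.span {a} * Ideal.span {x c'} * Ideal.span {x c} *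
            (Ideal.span {σ • b} * ((σ • (I c : Ideal (𝓞 L))) * (σ • (J : Ideal (𝓞 L))))) := by ring
      _ = Ideal.span {a} * Ideal.span {x c'} * Ideal.span {x c} *
            (Ideal.span {σ • a} * (σ • (I c' : Ideal (𝓞 L)))) := by rw [hab2]
      _ = Ideal.span {a} * Ideal.span {x c} * Ideal.span {σ • a} *
            (Ideal.span {x c'} * (σ • (I c' : Ideal (𝓞 L)))) := by ring
      _ = Ideal.span {a} * Ideal.span {x c} * Ideal.span {σ • a} *
            (Ideal.span {y c'} * (I c' : Ideal (𝓞 L))) := by rw [hxy']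
      _ = Ideal.span {x c} * Ideal.span {σ • a} * Ideal.span {y c'} *
            (Ideal.span {a} * (I c' : Ideal (𝓞 L))) := by ring
      _ = Ideal.span {x c} * Ideal.span {σ • a} * Ideal.span {y c'} *
            (Ideal.span {b} * ((I c : Ideal (𝓞 L)) * J)) := by rw [hab1]
      _ = Ideal.span {x c} * Ideal.span {σ • a} * Ideal.span {y c'} * Ideal.span {b} * (J : Ideal (𝓞 L)) * (I c : Ideal (𝓞 L)) := by ring
  have hX : a * x (c') * (σ • b) * y c ≠ 0 := mul_ne_zero (mul_ne_zero (mul_ne_zero ha hx') hσb) hy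
  have hY : x c * (σ • a) * y c' * b ≠ 0 := mul_ne_zero (mul_ne_zero (mul_ne_zero hx hσa) hy') hb
  have hηu : (((e c)⁻¹ * e c' : (𝓞 L)ˣ) : 𝓞 L) = NN n σ (η : 𝓞 L) := by rw [NN_unit, hη]
  have hee : (e c : 𝓞 L) * NN n σ (η : 𝓞 L) = (e c' : 𝓞 L) := by
    rw [← hηu, ← Units.val_mul, mul_inv_cancel_left]
  have hnorm : NN n σ (x c * (σ • a) * y c' * b) = NN n σ ((η : 𝓞 L) * (a * x (c') * (σ • b) * y c)) := by
    simp only [NN_mul, NN_smul hn hn0]
    rw [← hN, ← hN', ← hee]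
    ring
  obtain ⟨z, hz, hzJ⟩ := exists_inv hcard hσ hJ0 hX hY hrel hnorm
  have hzJ0 : Ideal.span {z} * (J : Ideal (𝓞 L)) ≠ ⊥ := by
    refine mul_ne_zero ?_ hJ0
    simpa using hz
  obtain ⟨A, hA⟩ := desc_ur hur hσ hzJ0 hzJ
  rw [← hJ]
  exact mem_range_ext hJ0 hz hA

/-- **The first inequality**, from the Herbrand quotient of the units. -/
theorem first_ineq (hn0 : n ≠ 0)
    (hH : n * (nU n σ).range.relIndex (dU σ).ker ≤ (dU σ).range.relIndex (nU n σ).ker)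
    (hfin : (nU n σ).range.relIndex (dU σ).ker ≠ 0) : n ≤ (nC K L).range.index := by
  classical
  set j := ClassGroup.extendedHom (𝓞 K) (𝓞 L) with hj
  have h3 := relIndex_le_card_ker hcard hσ hur
  have h2 := relIndex_le_units hcard hσ hur hn0 hfin
  set r := (nU n σ).range.relIndex (dU σ).ker with hr
  -- `j.range ≤ (dC σ).ker`
  have hjk : j.range ≤ (dC σ).ker := by
    rintro _ ⟨c, rfl⟩
    obtain ⟨I, rfl⟩ := ClassGroup.mk0_surjective c
    rw [hj, ClassGroup.extendedHom_mk0, MonoidHom.mem_ker]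
    show sC σ _ / _ = 1
    rw [div_eq_one, sC_mk0]
    congr 1
    apply Subtype.ext
    exact smul_map σ (I : Ideal (𝓞 K))
  have h4 := card_sub_mul j.range (dC σ).ker hjk
  -- `|D| ≤ |ker (σ - 1)|`
  have h5 : Nat.card (nC K L).range ≤ Nat.card (dC σ).ker := by
    have hle : (dC σ).range ≤ (nC K L).ker := by
      rintro _ ⟨c, rfl⟩
      rw [MonoidHom.mem_ker]
      show nC K L (sC σ c / c) = 1
      rw [map_div, nC_sC, div_self']
    have h6 : Nat.card (nC K L).range = (nC K L).ker.index := (Subgroup.index_ker _).symm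
    have h7 : (dC σ).ker.index = Nat.card (dC σ).range := Subgroup.index_ker _
    have h8 := Subgroup.card_mul_index (dC σ).ker
    have h9 := Subgroup.card_mul_index (dC σ).range
    have h10 : (dC σ).range.index = Nat.card (dC σ).ker := by
      have h11 : Nat.card (dC σ).range ≠ 0 := Nat.card_pos.ne'
      rw [h7] at h8
      have : Nat.card (dC σ).range * (dC σ).range.index = Nat.card (dC σ).range * Nat.card (dC σ).ker := by
        rw [h9, ← h8, mul_comm]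
      exact Nat.eq_of_mul_eq_mul_left (Nat.pos_of_ne_zero h11) this
    rw [h6, ← h10]
    haveI : (dC σ).range.FiniteIndex := Subgroup.finiteIndex_of_finite_quotient
    exact Nat.le_of_dvd (Nat.pos_of_ne_zero Subgroup.FiniteIndex.index_ne_zero) (Subgroup.index_dvd_of_le hle)
  have h6 : Nat.card j.range * Nat.card j.ker = Nat.card (ClassGroup (𝓞 K)) := by
    rw [← Subgroup.index_ker, mul_comm]; exact Subgroup.card_mul_index j.ker
  have h7 := Subgroup.card_mul_index (nC K L).range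
  have hD : 0 < Nat.card (nC K L).range := Nat.card_pos
  apply Nat.le_of_mul_le_mul_left _ hD
  rw [h7, ← h6]
  calc Nat.card (nC K L).range * n ≤ Nat.card (dC σ).ker * n := Nat.mul_le_mul_right _ h5
    _ = j.range.relIndex (dC σ).ker * Nat.card j.range * n := by rw [h4]
    _ ≤ r * Nat.card j.range * n := Nat.mul_le_mul_right _ (Nat.mul_le_mul_right _ h2)
    _ = Nat.card j.range * (n * r) := by ring
    _ ≤ Nat.card j.range * Nat.card j.ker := Nat.mul_le_mul_left _ (hH.trans h3)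

end

end Pool.Agent.H55.MU
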