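import Pool.Agent.Helper832_EG.PD6
import Pool.Agent.H55.MU.FI2
import Pool.Agent.H55.MU.Stm

/-!
# The first inequality: ranks of the groups of units
-/

set_option autoImplicit false
set_option linter.style.haveILetI false
set_option linter.unusedSectionVars false
set_option linter.unusedVariables false

open NumberField Ideal Module Pool.Agent.TeamU Pool.Agent.Helper832_EG
open scoped Pointwise nonZeroDivisors

namespace Pool.Agent.H55.MU

section
variable {K L : Type} [Field K] [NumberField K] [Field L] [NumberField L] [Algebra K L] [IsGalois K L]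

lemma rank_fixed {p k : ℕ} [hp : Fact p.Prime] (hp2 : p ≠ 2 ∨ IsTotallyComplex K) (hcard : Nat.card Gal(L/K) = p ^ k) {σ : Gal(L/K)}
    (hσ : ∀ g : Gal(L/K), g ∈ Subgroup.zpowers σ) {j : ℕ} (hj : j ≤ k) (δj : (𝓞 L)ˣ →* (𝓞 L)ˣ)
    (hδ : ∀ u, δj u = (sU σ)^[p ^ j] u / u) :
    finrank ℤ (Additive δj.ker) + 1 = p ^ j * Fintype.card (InfinitePlace K) := by
  classical
  set H : Subgroup Gal(L/K) := Subgroup.zpowers (σ ^ (p ^ j)) with hH
  set M : IntermediateField K L := IntermediateField.fixedField H with hM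
  have hMH : M.fixingSubgroup = H := IntermediateField.fixingSubgroup_fixedField H
  haveI hcomm : ∀ a b : Gal(L/K), a * b = b * a := by
    intro a b
    obtain ⟨m, rfl⟩ := Subgroup.mem_zpowers_iff.1 (hσ a)
    obtain ⟨l, rfl⟩ := Subgroup.mem_zpowers_iff.1 (hσ b)
    rw [← zpow_add, ← zpow_add, add_comm]
  haveI hnorm : H.Normal := ⟨fun x hx g => by rw [hcomm g x, mul_inv_cancel_right]; exact hx⟩
  haveI : NumberField M := inferInstance
  haveI : IsGalois M L := inferInstance
  haveI hGKM : IsGalois K M := IsGalois.of_fixedField_normal_subgroup H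
  have hord : orderOf σ = p ^ k := by rw [orderOf_eq_card_of_forall_mem_zpowers hσ, hcard]
  have hcH : Nat.card H = p ^ (k - j) := by
    rw [hH, Nat.card_zpowers, orderOf_pow, hord, Nat.gcd_eq_right (Nat.pow_dvd_pow p hj), Nat.pow_div hj hp.out.pos]
  have hfr : finrank M L = p ^ (k - j) := by rw [← hcH]; exact IntermediateField.finrank_fixedField_eq_card H
  have hKL : finrank K L = p ^ k := by rw [← IsGalois.card_aut_eq_finrank, hcard]
  have hKM : finrank K M = p ^ j := by
    have h1 := Module.finrank_mul_finrank K M L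
    rw [hfr, hKL] at h1
    have h2 : p ^ k = p ^ j * p ^ (k - j) := by rw [← pow_add, Nat.add_sub_cancel' hj]
    rw [h2] at h1
    exact Nat.eq_of_mul_eq_mul_right (pow_pos hp.out.pos _) h1
  haveI : IsUnramifiedAtInfinitePlaces K M := by
    rcases hp2 with hp2 | hp2
    · have hodd : Odd (finrank K M) := by
        rw [hKM]
        exact (hp.out.odd_of_ne_two hp2).pow
      exact IsUnramifiedAtInfinitePlaces_of_odd_finrank hodd
    · exact ⟨fun w => InfinitePlace.isUnramified_iff.2 (Or.inr (hp2.isComplex _))⟩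
  have hpl : Fintype.card (InfinitePlace M) = Fintype.card (InfinitePlace K) * p ^ j := by
    rw [IsUnramifiedAtInfinitePlaces.card_infinitePlace K M, hKM]
  have hmem : σ ^ (p ^ j) ∈ M.fixingSubgroup := by rw [hMH]; exact Subgroup.mem_zpowers _
  set e : M.fixingSubgroup ≃* Gal(L/M) := IntermediateField.fixingSubgroupEquiv M with he
  set τ : Gal(L/M) := e ⟨σ ^ (p ^ j), hmem⟩ with hτ
  have hτgen : ∀ g : Gal(L/M), g ∈ Subgroup.zpowers τ := by
    intro g
    have h1 : ((e.symm g : M.fixingSubgroup) : Gal(L/K)) ∈ H := by rw [← hMH]; exact (e.symm g).2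
    obtain ⟨m, hm⟩ := Subgroup.mem_zpowers_iff.1 h1
    refine Subgroup.mem_zpowers_iff.2 ⟨m, ?_⟩
    have h2 : (⟨σ ^ (p ^ j), hmem⟩ : M.fixingSubgroup) ^ m = e.symm g := Subtype.ext hm
    rw [hτ, ← map_zpow, h2, MulEquiv.apply_symm_apply]
  have hker : δj.ker = (dU τ).ker := by
    have h1 : ∀ u : (𝓞 L)ˣ, (sU σ)^[p ^ j] u = sU τ u := by
      intro u
      apply Units.ext
      rw [sU_iter, sU_coe]
      rfl
    ext u
    rw [MonoidHom.mem_ker, MonoidHom.mem_ker, hδ, h1]
    rfl
  have h1 : finrank ℤ (Additive (dU τ).ker) = finrank ℤ (Additive (𝓞 M)ˣ) := finrank_ker_dU hτgen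
  have h2 : finrank ℤ (Additive (𝓞 M)ˣ) = Units.rank M := Units.finrank_eq M
  have h3 : Units.rank M = Fintype.card (InfinitePlace M) - 1 := rfl
  have h4 : 0 < Fintype.card (InfinitePlace M) := Fintype.card_pos
  rw [hker, h1, h2, h3, Nat.sub_add_cancel h4, hpl, mul_comm]

/-- **The first inequality** for unramified cyclic extensions of prime power degree. -/
theorem first (hHerb : S_HERB) {p k : ℕ} [hp : Fact p.Prime] (hp2 : p ≠ 2 ∨ IsTotallyComplex K) (hcard : Nat.card Gal(L/K) = p ^ k)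
    (hcyc : IsCyclic Gal(L/K)) (hur : ∀ Q : Ideal (𝓞 L), Q.IsMaximal → Q.ramificationIdx (𝓞 K) = 1) :
    p ^ k ≤ (nC K L).range.index := by
  obtain ⟨σ, hσ⟩ := IsCyclic.exists_generator (α := Gal(L/K))
  have hn0 : p ^ k ≠ 0 := pow_ne_zero _ hp.out.ne_zero
  obtain ⟨h1, h2⟩ := hHerb (𝓞 L)ˣ p k (Fintype.card (InfinitePlace K)) (sU σ) (dU σ) (nU (p ^ k) σ) (by
    intro u
    apply Units.ext
    rw [sU_iter]
    have : σ ^ (p ^ k) = 1 := by rw [← hcard]; exact pow_card_eq_one'
    rw [this, one_smul]) (fun _ => rfl) (fun _ => rfl) (fun j hj δj hδj => rank_fixed hp2 hcard hσ hj δj hδj)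
  exact first_ineq hcard hσ hur hn0 h1 h2

/-- The degree of an unramified cyclic extension of prime power degree is at most the class number. -/
theorem first_classNumber (hHerb : S_HERB) {p k : ℕ} [hp : Fact p.Prime] (hp2 : p ≠ 2 ∨ IsTotallyComplex K)
    (hcard : Nat.card Gal(L/K) = p ^ k) (hcyc : IsCyclic Gal(L/K))
    (hur : ∀ Q : Ideal (𝓞 L), Q.IsMaximal → Q.ramificationIdx (𝓞 K) = 1) : p ^ k ≤ classNumber K := by
  refine (first hHerb hp2 hcard hcyc hur).trans ?_
  have h1 := Subgroup.card_mul_index (nC K L).range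
  rw [classNumber, ← Nat.card_eq_fintype_card, ← h1]
  exact Nat.le_mul_of_pos_left _ Nat.card_pos

end

end Pool.Agent.H55.MU
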