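import Pool.Agent.H55.MU.FI3
import Pool.Agent.Y772.DK.Dir

/-!
# The degree of an unramified abelian extension of `p`-power degree is at most the class number
-/

set_option autoImplicit false
set_option linter.style.haveILetI false
set_option linter.unusedSectionVars false
set_option linter.unusedVariables false

open NumberField Ideal Module
open scoped Pointwise nonZeroDivisors Classical

namespace Pool.Agent.H55.MU

/-! ### Group theory -/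

lemma exists_cyc_quot {G : Type} [Group G] [Finite G] (hab : ∀ x y : G, x * y = y * x) {z : G} (hz : z ≠ 1) :
    ∃ χ : G →* ℂˣ, χ z ≠ 1 := by
  letI : CommGroup G := { (inferInstance : Group G) with mul_comm := hab }
  exact CommGroup.exists_apply_ne_one_of_hasEnoughRootsOfUnity G ℂ hz

/-! ### Analysis -/

lemma compare {d g C : ℝ} (hd : 0 < d) (hg : 0 < g)
    (h : ∀ s : ℝ, 1 < s → s ≤ 2 → Real.log (1 / (s - 1)) * (1 / d - 1 / g) ≤ C) : g ≤ d := by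
  by_contra hcon
  push Not at hcon
  have he : 0 < 1 / d - 1 / g := by
    have := one_div_lt_one_div_of_lt hd hcon
    linarith
  set ε := 1 / d - 1 / g with hε
  set B := (|C| + 1) / ε with hB
  have hB0 : 0 < B := div_pos (by positivity) he
  have h1 := h (1 + Real.exp (-B)) (by linarith [Real.exp_pos (-B)]) (by
    have : Real.exp (-B) ≤ 1 := Real.exp_le_one_iff.2 (by linarith)
    linarith)
  have h2 : Real.log (1 / (1 + Real.exp (-B) - 1)) = B := by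
    rw [add_sub_cancel_left, one_div, Real.log_inv, Real.log_exp, neg_neg]
  rw [h2, hB, div_mul_cancel₀ _ he.ne'] at h1
  have := le_abs_self C
  linarith

section
variable (K : Type) [Field K] [NumberField K]

lemma ps_summable (T : Set (Ideal (𝓞 K))) {s : ℝ} (hs : 1 < s) :
    Summable fun 𝔭 : Ideal (𝓞 K) => if 𝔭.IsMaximal ∧ 𝔭 ∈ T then ((Ideal.absNorm 𝔭 : ℕ) : ℝ) ^ (-s) else 0 := by
  refine Summable.of_nonneg_of_le (fun 𝔭 => ?_) (fun 𝔭 => ?_) (Pool.Agent.Y772.DK.nr_summable K hs)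
  · split_ifs
    · exact Real.rpow_nonneg (Nat.cast_nonneg _) _
    · exact le_rfl
  · split_ifs
    · exact le_rfl
    · exact Real.rpow_nonneg (Nat.cast_nonneg _) _

lemma ps_le_add {ι : Type} (F : Finset ι) (S T : Set (Ideal (𝓞 K))) (SH TH : ι → Set (Ideal (𝓞 K)))
    (hTS : ∀ i ∈ F, ∀ 𝔭 : Ideal (𝓞 K), 𝔭.IsMaximal → 𝔭 ∈ TH i → 𝔭 ∈ SH i)
    (h : ∀ 𝔭 : Ideal (𝓞 K), 𝔭.IsMaximal → 𝔭 ∈ S → 𝔭 ∉ T → ∃ i ∈ F, 𝔭 ∈ SH i ∧ 𝔭 ∉ TH i) {s : ℝ} (hs : 1 < s) :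
    PS K S s ≤ PS K T s + ∑ i ∈ F, (PS K (SH i) s - PS K (TH i) s) := by
  have h1 : PS K T s + ∑ i ∈ F, (PS K (SH i) s - PS K (TH i) s) =
      ∑' 𝔭 : Ideal (𝓞 K), ((if 𝔭.IsMaximal ∧ 𝔭 ∈ T then ((Ideal.absNorm 𝔭 : ℕ) : ℝ) ^ (-s) else 0) +
        ∑ i ∈ F, ((if 𝔭.IsMaximal ∧ 𝔭 ∈ SH i then ((Ideal.absNorm 𝔭 : ℕ) : ℝ) ^ (-s) else 0) -
          (if 𝔭.IsMaximal ∧ 𝔭 ∈ TH i then ((Ideal.absNorm 𝔭 : ℕ) : ℝ) ^ (-s) else 0))) := by
    rw [Summable.tsum_add (ps_summable K T hs)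
      (summable_sum fun i _ => (ps_summable K (SH i) hs).sub (ps_summable K (TH i) hs)),
      Summable.tsum_finsetSum (fun i _ => (ps_summable K (SH i) hs).sub (ps_summable K (TH i) hs))]
    congr 1
    refine Finset.sum_congr rfl fun i _ => ?_
    rw [Summable.tsum_sub (ps_summable K (SH i) hs) (ps_summable K (TH i) hs)]
    rfl
  rw [h1]
  refine Summable.tsum_le_tsum (fun 𝔭 => ?_) (ps_summable K S hs)
    ((ps_summable K T hs).add (summable_sum fun i _ => (ps_summable K (SH i) hs).sub (ps_summable K (TH i) hs)))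
  set w : ℝ := ((Ideal.absNorm 𝔭 : ℕ) : ℝ) ^ (-s) with hw
  have hw0 : 0 ≤ w := Real.rpow_nonneg (Nat.cast_nonneg _) _
  have hnn : ∀ i ∈ F, 0 ≤ (if 𝔭.IsMaximal ∧ 𝔭 ∈ SH i then w else 0) - (if 𝔭.IsMaximal ∧ 𝔭 ∈ TH i then w else 0) := by
    intro i hi
    by_cases hm : 𝔭.IsMaximal ∧ 𝔭 ∈ TH i
    · rw [if_pos hm, if_pos ⟨hm.1, hTS i hi 𝔭 hm.1 hm.2⟩, sub_self]
    · rw [if_neg hm, sub_zero]
      split_ifs
      · exact hw0
      · exact le_rfl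
  have hT0 : 0 ≤ (if 𝔭.IsMaximal ∧ 𝔭 ∈ T then w else 0) := by
    split_ifs
    · exact hw0
    · exact le_rfl
  by_cases hS : 𝔭.IsMaximal ∧ 𝔭 ∈ S
  · rw [if_pos hS]
    by_cases hT : 𝔭 ∈ T
    · rw [if_pos ⟨hS.1, hT⟩]
      linarith [Finset.sum_nonneg hnn]
    · obtain ⟨i, hi, hi1, hi2⟩ := h 𝔭 hS.1 hS.2 hT
      have h2 := Finset.single_le_sum hnn hi
      rw [if_pos ⟨hS.1, hi1⟩, if_neg (fun hh => hi2 hh.2), sub_zero] at h2
      linarith
  · rw [if_neg hS]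
    linarith [Finset.sum_nonneg hnn]

lemma ps_mono {S T : Set (Ideal (𝓞 K))} (h : ∀ 𝔭 : Ideal (𝓞 K), 𝔭.IsMaximal → 𝔭 ∈ S → 𝔭 ∈ T) {s : ℝ} (hs : 1 < s) :
    PS K S s ≤ PS K T s := by
  have := ps_le_add K (∅ : Finset ℕ) S T (fun _ => ∅) (fun _ => ∅) (by simp) (fun 𝔭 hm h1 h2 => absurd (h 𝔭 hm h1) h2) hs
  simpa using this

lemma ps_nonneg (T : Set (Ideal (𝓞 K))) (s : ℝ) : 0 ≤ PS K T s := by
  refine tsum_nonneg fun 𝔭 => ?_
  split_ifs
  · exact Real.rpow_nonneg (Nat.cast_nonneg _) _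
  · exact le_rfl

end

/-! ### Primes in Galois extensions -/

section
variable {K L : Type} [Field K] [NumberField K] [Field L] [NumberField L] [Algebra K L]

lemma absNorm_eq_iff {Q : Ideal (𝓞 L)} (hQ : Q.IsMaximal) :
    Ideal.absNorm Q = Ideal.absNorm (Q.under (𝓞 K)) ↔ Q.inertiaDeg (𝓞 K) = 1 := by
  haveI : Algebra.IsIntegral (𝓞 K) (𝓞 L) := Algebra.IsIntegral.tower_top (R := ℤ)
  haveI hq : (Q.under (𝓞 K)).IsMaximal := Ideal.IsMaximal.under (𝓞 K) Q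
  haveI : Q.LiesOver (Q.under (𝓞 K)) := ⟨rfl⟩
  have h1 : Ideal.absNorm (Ideal.relNorm (𝓞 K) Q) = Ideal.absNorm Q :=
    Ideal.absNorm_relNorm (R := 𝓞 K) (S := 𝓞 L) (I := Q)
  rw [Ideal.relNorm_eq_pow_of_isMaximal Q (Q.under (𝓞 K)), map_pow] at h1
  have hq1 : Ideal.absNorm (Q.under (𝓞 K)) ≠ 1 := fun h => hq.ne_top (Ideal.absNorm_eq_one_iff.1 h)
  have hq0 : Ideal.absNorm (Q.under (𝓞 K)) ≠ 0 := fun h0 =>
    Ideal.IsMaximal.ne_bot_of_isIntegral_int (Q.under (𝓞 K)) (Ideal.absNorm_eq_zero_iff.1 h0)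
  have h3 : 1 < Ideal.absNorm (Q.under (𝓞 K)) := by omega
  rw [← h1]
  constructor
  · intro h
    exact Nat.pow_right_injective h3 (by simpa using h)
  · intro h
    rw [h, pow_one]

variable [IsGalois K L]

lemma card_stab {Q : Ideal (𝓞 L)} (hQ : Q.IsMaximal) (hr : Q.ramificationIdx (𝓞 K) = 1) :
    Nat.card (MulAction.stabilizer Gal(L/K) Q) = Q.inertiaDeg (𝓞 K) := by
  haveI : IsGaloisGroup Gal(L/K) (𝓞 K) (𝓞 L) := Pool.Agent.Helper832_EG.isGalGrp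
  haveI := hQ.isPrime
  have hQ0 : Q ≠ ⊥ := Ideal.IsMaximal.ne_bot_of_isIntegral_int Q
  haveI : Q.LiesOver (Q.under (𝓞 K)) := ⟨rfl⟩
  rw [Ideal.card_stabilizer_eq (Q.under (𝓞 K)) Q,
    Ideal.ramificationIdxIn_eq_ramificationIdx (Q.under (𝓞 K)) Q Gal(L/K),
    Ideal.inertiaDegIn_eq_inertiaDeg (Q.under (𝓞 K)) Q Gal(L/K), hr, one_mul]

/-- an intermediate extension of an unramified extension is unramified -/
lemma ur_sub (hur : ∀ Q : Ideal (𝓞 L), Q.IsMaximal → Q.ramificationIdx (𝓞 K) = 1) (M : IntermediateField K L) :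
    ∀ Q : Ideal (𝓞 M), Q.IsMaximal → Q.ramificationIdx (𝓞 K) = 1 := by
  intro Q hQ
  haveI : Algebra.IsIntegral (𝓞 M) (𝓞 L) := Algebra.IsIntegral.tower_top (R := ℤ)
  obtain ⟨Q', hQ', hQQ⟩ := Ideal.exists_maximal_ideal_liesOver_of_isIntegral (S := 𝓞 L) Q
  haveI := hQ'.isPrime
  haveI := hQ.isPrime
  have h1 := Ideal.ramificationIdx_tower (R := 𝓞 K) Q Q'
  rw [hur Q' hQ'] at h1
  exact Nat.eq_one_of_mul_eq_one_right h1.symm

/-- elements of the decomposition group are trivial on the extensions where the prime splits completely -/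
lemma stab_sub (hur : ∀ Q : Ideal (𝓞 L), Q.IsMaximal → Q.ramificationIdx (𝓞 K) = 1) (M : IntermediateField K L)
    [IsGalois K M] {Q : Ideal (𝓞 L)} (hQ : Q.IsMaximal) {Q1 : Ideal (𝓞 M)} (hQ1 : Q1.IsMaximal)
    (hunder : Q1.under (𝓞 K) = Q.under (𝓞 K)) (hN : Ideal.absNorm Q1 = Ideal.absNorm (Q1.under (𝓞 K)))
    {z : Gal(L/K)} (hz : z • Q = Q) : z ∈ M.fixingSubgroup := by
  haveI : IsGaloisGroup Gal(M/K) (𝓞 K) (𝓞 M) := Pool.Agent.Helper832_EG.isGalGrp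
  haveI : Algebra.IsIntegral (𝓞 M) (𝓞 L) := Algebra.IsIntegral.tower_top (R := ℤ)
  have hQM : (Q.under (𝓞 M)).IsMaximal := Ideal.IsMaximal.under (𝓞 M) Q
  haveI := hQM.isPrime
  haveI := hQ1.isPrime
  haveI : Q.LiesOver (Q.under (𝓞 M)) := ⟨rfl⟩
  have hf1 : Q1.inertiaDeg (𝓞 K) = 1 := (absNorm_eq_iff hQ1).1 hN
  have hf2 : (Q.under (𝓞 M)).inertiaDeg (𝓞 K) = 1 := by
    rw [← hf1]
    haveI : Q1.LiesOver (Q.under (𝓞 K)) := ⟨hunder.symm⟩
    haveI : (Q.under (𝓞 M)).LiesOver (Q.under (𝓞 K)) := ⟨(Ideal.under_under (A := 𝓞 K) (B := 𝓞 M) (𝔓 := Q)).symm⟩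
    haveI : (Q.under (𝓞 K)).IsPrime := inferInstance
    exact Ideal.inertiaDeg_eq_of_isGaloisGroup (Q.under (𝓞 K)) (Q.under (𝓞 M)) Q1 Gal(M/K)
  have hcs := card_stab (K := K) hQM (ur_sub hur M _ hQM)
  rw [hf2] at hcs
  have hbot : MulAction.stabilizer Gal(M/K) (Q.under (𝓞 M)) = ⊥ := Subgroup.card_eq_one.1 hcs
  have hres : ∀ (g : Gal(L/K)) (x : 𝓞 M), algebraMap (𝓞 M) (𝓞 L) (AlgEquiv.restrictNormalHom M g • x) =
      g • algebraMap (𝓞 M) (𝓞 L) x := by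
    intro g x
    apply RingOfIntegers.ext
    exact AlgEquiv.restrictNormal_commutes g M (x : M)
  have hmem : AlgEquiv.restrictNormalHom M z ∈ MulAction.stabilizer Gal(M/K) (Q.under (𝓞 M)) := by
    rw [MulAction.mem_stabilizer_iff]
    ext x
    rw [Ideal.mem_pointwise_smul_iff_inv_smul_mem, ← map_inv, Ideal.under_def, Ideal.mem_comap, Ideal.mem_comap, hres]
    have hz' : z⁻¹ • Q = Q := by rw [inv_smul_eq_iff]; exact hz.symm
    conv_lhs => rw [← hz']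
    exact Ideal.smul_mem_pointwise_smul_iff
  rw [hbot, Subgroup.mem_bot] at hmem
  rw [← M.restrictNormalHom_ker, MonoidHom.mem_ker]
  exact hmem

end

end Pool.Agent.H55.MU
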